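import Mathlib

/-! MP_8215f0_lc : common definitions for the modules. -/

set_option autoImplicit false

noncomputable section

namespace Pool.Agent.UHz

/-- the Hilbert space `ℓ²(ℕ, ℂ)` -/
abbrev HH := lp (fun _ : ℕ => ℂ) 2

/-- its unitary group -/
abbrev UU := HH ≃ₗᵢ[ℂ] HH

/-- letters: `(i, s)` is the `i`-th child of the node `s` -/
abbrev LL := ℕ × List ℕ

/-- the free group on the letters -/
abbrev FF := FreeGroup LL

/-- the path words `w_[] = 1`, `w_(i :: s) = w_s * y_(i, s)` -/
def pw : List ℕ → FF
  | [] => 1
  | i :: s => pw s * FreeGroup.of (i, s)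

/-- subgroup generated by the letters of level `< n` -/
def AA (n : ℕ) : Subgroup FF := Subgroup.closure (FreeGroup.of '' {a : LL | a.2.length < n})

end Pool.Agent.UHz

end
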