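import Pool.Agent.Lib_helper69.UH.Defs

/-! MP_8215f0_lc, module D4a: strong convergence along a branch. -/

set_option autoImplicit false
open Filter Topology

noncomputable section

namespace Pool.Agent.UHz

/-- the vectors on which a sequence of unitaries converges form a closed subspace -/
def convSub (u : ℕ → UU) : Submodule ℂ HH where
  carrier := {v | CauchySeq (fun m => u m v)}
  add_mem' := by
    intro a b ha hb
    show CauchySeq (fun m => u m (a + b))
    have : (fun m => u m (a + b)) = (fun m => u m a + u m b) := by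
      funext m; simp
    rw [this]
    exact CauchySeq.add ha hb
  zero_mem' := by
    show CauchySeq (fun m => u m 0)
    simp only [map_zero]
    exact cauchySeq_const _
  smul_mem' := by
    intro c a ha
    show CauchySeq (fun m => u m (c • a))
    have : (fun m => u m (c • a)) = (fun m => c • u m a) := by
      funext m; simp
    rw [this]
    exact (uniformContinuous_const_smul c).comp_cauchySeq ha

lemma convSub_closed (u : ℕ → UU) : IsClosed (convSub u : Set HH) := by
  rw [← isSeqClosed_iff_isClosed]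
  intro v w hv hw
  show CauchySeq (fun m => u m w)
  rw [Metric.cauchySeq_iff']
  intro ε hε
  rw [Metric.tendsto_atTop] at hw
  obtain ⟨n, hn⟩ := hw (ε / 3) (by positivity)
  have h1 := hn n le_rfl
  have h2 : CauchySeq (fun m => u m (v n)) := hv n
  rw [Metric.cauchySeq_iff'] at h2
  obtain ⟨M, hM⟩ := h2 (ε / 3) (by positivity)
  refine ⟨M, fun m hm => ?_⟩
  have h3 := hM m hm
  calc dist (u m w) (u M w) ≤ dist (u m w) (u m (v n)) + dist (u m (v n)) (u M (v n)) +
        dist (u M (v n)) (u M w) := dist_triangle4 _ _ _ _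
    _ = dist w (v n) + dist (u m (v n)) (u M (v n)) + dist (v n) w := by
        rw [(u m).dist_map, (u M).dist_map]
    _ < ε / 3 + ε / 3 + ε / 3 := by
        rw [dist_comm w (v n)]
        linarith
    _ = ε := by ring

lemma limit_unitary (u : ℕ → UU) (h1 : ∀ v, CauchySeq (fun m => u m v))
    (h2 : ∀ v, CauchySeq (fun m => (u m)⁻¹ v)) :
    ∃ U : UU, ∀ x, Tendsto (fun m => u m x) atTop (𝓝 (U x)) := by
  choose T hT using fun v => cauchySeq_tendsto_of_complete (h1 v)
  choose T' hT' using fun v => cauchySeq_tendsto_of_complete (h2 v)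
  let Tl : HH →ₗᵢ[ℂ] HH :=
    { toFun := T
      map_add' := fun a b => by
        refine tendsto_nhds_unique (hT (a + b)) ?_
        have := (hT a).add (hT b)
        simpa using this
      map_smul' := fun c a => by
        refine tendsto_nhds_unique (hT (c • a)) ?_
        have := (hT a).const_smul c
        simpa using this
      norm_map' := fun a => by
        refine tendsto_nhds_unique ((hT a).norm) ?_
        simp }
  have hsurj : Function.Surjective Tl := by
    intro v
    refine ⟨T' v, ?_⟩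
    show T (T' v) = v
    refine tendsto_nhds_unique (hT (T' v)) ?_
    rw [tendsto_iff_dist_tendsto_zero]
    have h3 := (tendsto_iff_dist_tendsto_zero.1 (hT' v))
    refine h3.congr fun m => ?_
    have e : u m ((u m)⁻¹ v) = v := (u m).apply_symm_apply v
    rw [← (u m).dist_map, e, dist_comm]
  exact ⟨LinearIsometryEquiv.ofSurjective Tl hsurj, hT⟩

theorem branch_conv (N : FF → ℝ) (Q : List ℕ → Finset FF) (hN0 : ∀ x, 0 ≤ N x)
    (hgen : ∀ i s, ∀ q ∈ Q s, N (q⁻¹ * FreeGroup.of (i, s) * q) ≤ (1 / 4) ^ s.length)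
    (hev : ∀ h, ∃ m, ∀ s : List ℕ, m ≤ s.length → h ∈ Q s ∧ (pw s)⁻¹ * h ∈ Q s)
    (ρ : FF →* UU) (ξ : FF → HH) (hρ : ∀ w x, ρ w (ξ x) = ξ (w * x))
    (hξ : ∀ x y, inner ℂ (ξ x) (ξ y) = ((Real.exp (-N (x⁻¹ * y)) : ℝ) : ℂ))
    (hN1 : N 1 = 0)
    (hd : (Submodule.span ℂ (Set.range ξ ∪ {v | ∀ w, ρ w v = v})).topologicalClosure = ⊤)
    (node : ℕ → List ℕ) (h0 : node 0 = []) (hs : ∀ m, ∃ i, node (m + 1) = i :: node m) :
    ∃ U : UU, ∀ x, Tendsto (fun m => ρ (pw (node m)) x) atTop (𝓝 (U x)) := by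
  have hlen : ∀ m, (node m).length = m := by
    intro m
    induction m with
    | zero => simp [h0]
    | succ m ih =>
      obtain ⟨i, hi⟩ := hs m
      rw [hi, List.length_cons, ih]
  choose b hb using hs
  have hpw : ∀ m, pw (node (m + 1)) = pw (node m) * FreeGroup.of (b m, node m) := by
    intro m
    rw [hb m, pw]
  -- distance estimate
  have hdist : ∀ x y, dist (ξ x) (ξ y) ^ 2 ≤ 2 * N (x⁻¹ * y) := by
    intro x y
    rw [dist_eq_norm, @norm_sub_sq ℂ]
    have e1 : ∀ x, ‖ξ x‖ ^ 2 = 1 := by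
      intro x
      rw [← @inner_self_eq_norm_sq ℂ, hξ]
      simp [hN1]
    rw [e1, e1, hξ]
    have e2 : RCLike.re ((Real.exp (-N (x⁻¹ * y)) : ℝ) : ℂ) = Real.exp (-N (x⁻¹ * y)) :=
      Complex.ofReal_re _
    rw [e2]
    have := Real.add_one_le_exp (-N (x⁻¹ * y))
    linarith
  have hsmall : ∀ m, ∀ h ∈ Q (node m),
      dist (ξ h) (ξ (FreeGroup.of (b m, node m) * h)) ≤ 2 * (1 / 2) ^ m := by
    intro m h hh
    have h1 := hgen (b m) (node m) h hh
    rw [hlen m] at h1
    have h2 := hdist h (FreeGroup.of (b m, node m) * h)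
    rw [← mul_assoc] at h2
    have h3 : dist (ξ h) (ξ (FreeGroup.of (b m, node m) * h)) ^ 2 ≤ (2 * (1 / 2) ^ m) ^ 2 := by
      have e : ((2 : ℝ) * (1 / 2) ^ m) ^ 2 = 4 * (1 / 4) ^ m := by
        rw [mul_pow, ← pow_mul, mul_comm m 2, pow_mul]; norm_num
      rw [e]
      have : (0 : ℝ) < (1 / 4) ^ m := by positivity
      linarith
    exact abs_le_of_sq_le_sq' h3 (by positivity) |>.2
  have hsum : Summable (fun m : ℕ => (2 : ℝ) * (1 / 2) ^ m) :=
    (summable_geometric_of_lt_one (by norm_num) (by norm_num)).mul_left 2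
  have hcauchy : ∀ (f : ℕ → HH) (M : ℕ), (∀ m ≥ M, dist (f m) (f (m + 1)) ≤ 2 * (1 / 2) ^ m) →
      CauchySeq f := by
    intro f M hf
    have h1 : CauchySeq (fun m => f (m + M)) := by
      refine cauchySeq_of_dist_le_of_summable (fun m => 2 * (1 / 2) ^ (m + M)) ?_ ?_
      · intro m
        have := hf (m + M) (by omega)
        rwa [show m + M + 1 = (m + 1) + M by ring] at this
      · exact (summable_nat_add_iff M).2 hsum
    exact (cauchySeq_shift M).1 h1
  have hc1 : ∀ h, CauchySeq (fun m => ρ (pw (node m)) (ξ h)) := by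
    intro h
    obtain ⟨M, hM⟩ := hev h
    refine hcauchy _ M fun m hm => ?_
    have h1 := (hM (node m) (by rw [hlen]; exact hm)).1
    have h2 := hsmall m h h1
    rw [hpw, map_mul]
    show dist (ρ (pw (node m)) (ξ h)) (ρ (pw (node m)) (ρ (FreeGroup.of (b m, node m)) (ξ h))) ≤ _
    rw [(ρ (pw (node m))).dist_map, hρ]
    exact h2
  have hc2 : ∀ h, CauchySeq (fun m => (ρ (pw (node m)))⁻¹ (ξ h)) := by
    intro h
    obtain ⟨M, hM⟩ := hev h
    refine hcauchy _ M fun m hm => ?_
    have h1 := (hM (node m) (by rw [hlen]; exact hm)).2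
    have h2 := hsmall m _ h1
    rw [← map_inv, ← map_inv, hpw, mul_inv_rev, hρ, hρ]
    set y : FF := FreeGroup.of (b m, node m)
    have h3 : dist (ρ y⁻¹ (ξ ((pw (node m))⁻¹ * h)))
        (ρ y⁻¹ (ξ (y * ((pw (node m))⁻¹ * h)))) ≤ 2 * (1 / 2) ^ m := by
      rw [(ρ y⁻¹).dist_map]; exact h2
    rw [hρ, hρ, inv_mul_cancel_left, ← mul_assoc] at h3
    rw [dist_comm]
    exact h3
  have hall : ∀ u : ℕ → UU, (∀ h, CauchySeq (fun m => u m (ξ h))) →
      (∀ v, (∀ w, ρ w v = v) → CauchySeq (fun m => u m v)) → ∀ v, CauchySeq (fun m => u m v) := by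
    intro u h1 h2 v
    have h3 : Submodule.span ℂ (Set.range ξ ∪ {v | ∀ w, ρ w v = v}) ≤ convSub u := by
      rw [Submodule.span_le]
      rintro x (⟨h, rfl⟩ | hx)
      · exact h1 h
      · exact h2 x hx
    have h4 := Submodule.topologicalClosure_minimal _ h3 (convSub_closed u)
    rw [hd] at h4
    exact h4 (Submodule.mem_top : v ∈ ⊤)
  refine limit_unitary _ (hall _ hc1 ?_) (hall (fun m => (ρ (pw (node m)))⁻¹) hc2 ?_)
  · intro v hv
    simp only [hv]
    exact cauchySeq_const _
  · intro v hv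
    have : ∀ m, (ρ (pw (node m)))⁻¹ v = v := fun m => by rw [← map_inv]; exact hv _
    simp only [this]
    exact cauchySeq_const _

end Pool.Agent.UHz

end
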