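import Pool.Agent.Lib_helper69.UH.Defs

/-! MP_8215f0_lc, module D4: the closed subgroup `R` of `U(ℓ²) × G`. -/

set_option autoImplicit false
set_option linter.unusedSectionVars false

open Filter Topology

noncomputable section

namespace Pool.Agent.UHz

/-- strong operator topology on the unitary group -/
local instance : TopologicalSpace UU :=
  TopologicalSpace.induced (fun U : UU => (⇑U : HH → HH)) inferInstance

lemma UU_tendsto {ι : Type} {l : Filter ι} {u : ι → UU} {U : UU} :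
    Tendsto u l (𝓝 U) ↔ ∀ x, Tendsto (fun k => u k x) l (𝓝 (U x)) := by
  rw [nhds_induced, tendsto_comap_iff, tendsto_pi_nhds]
  rfl

lemma UU_continuous_eval (x : HH) : Continuous (fun U : UU => U x) :=
  (continuous_apply x).comp continuous_induced_dom

lemma UU_continuous_iff {X : Type} [TopologicalSpace X] {f : X → UU} :
    Continuous f ↔ ∀ x, Continuous (fun t => f t x) := by
  rw [continuous_induced_rng, continuous_pi_iff]
  rfl

local instance : IsTopologicalGroup UU where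
  continuous_mul := by
    rw [UU_continuous_iff]
    intro x
    rw [continuous_iff_continuousAt]
    rintro ⟨U0, V0⟩
    rw [ContinuousAt, tendsto_iff_dist_tendsto_zero]
    have h1 : Tendsto (fun p : UU × UU => dist (p.2 x) (V0 x)) (𝓝 (U0, V0)) (𝓝 0) := by
      rw [← tendsto_iff_dist_tendsto_zero]
      exact ((UU_continuous_eval x).comp continuous_snd).tendsto (U0, V0)
    have h2 : Tendsto (fun p : UU × UU => dist (p.1 (V0 x)) (U0 (V0 x))) (𝓝 (U0, V0)) (𝓝 0) := by
      rw [← tendsto_iff_dist_tendsto_zero]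
      exact ((UU_continuous_eval (V0 x)).comp continuous_fst).tendsto (U0, V0)
    have h3 := h1.add h2
    rw [add_zero] at h3
    refine squeeze_zero (fun _ => dist_nonneg) (fun p => ?_) h3
    show dist (p.1 (p.2 x)) (U0 (V0 x)) ≤ _
    calc dist (p.1 (p.2 x)) (U0 (V0 x)) ≤ dist (p.1 (p.2 x)) (p.1 (V0 x)) +
          dist (p.1 (V0 x)) (U0 (V0 x)) := dist_triangle _ _ _
      _ = _ := by rw [p.1.dist_map]
  continuous_inv := by
    rw [UU_continuous_iff]
    intro x
    rw [continuous_iff_continuousAt]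
    intro U0
    rw [ContinuousAt, tendsto_iff_dist_tendsto_zero]
    have h1 : Tendsto (fun U : UU => dist (U (U0⁻¹ x)) (U0 (U0⁻¹ x))) (𝓝 U0) (𝓝 0) := by
      rw [← tendsto_iff_dist_tendsto_zero]
      exact (UU_continuous_eval (U0⁻¹ x)).tendsto U0
    refine squeeze_zero (fun _ => dist_nonneg) (fun U => ?_) h1
    have e1 : U0 (U0⁻¹ x) = x := U0.apply_symm_apply x
    have e2 : U (U⁻¹ x) = x := U.apply_symm_apply x
    rw [e1, dist_comm]
    have : dist (U (U0⁻¹ x)) x = dist (U (U0⁻¹ x)) (U (U⁻¹ x)) := by rw [e2]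
    rw [this, U.dist_map, dist_comm]

theorem factor_core (G : Type) [TopologicalSpace G] [Group G] [IsTopologicalGroup G]
    [PolishSpace G]
    -- length
    (L : G → ℝ) (hL1 : L 1 = 0) (hLhalf : ∀ g, L g < 1 / 2)
    (hLinv : ∀ g, L g⁻¹ = L g) (hLmul : ∀ g h, L (g * h) ≤ L g + L h) (hLc : Continuous L)
    (hLb : ∀ W ∈ 𝓝 (1 : G), ∃ ε > 0, ∀ g, L g < ε → g ∈ W)
    -- Raikov
    (hraikov : ∀ g : ℕ → G,
      Tendsto (fun p : ℕ × ℕ => (g p.1)⁻¹ * g p.2) atTop (𝓝 1) →
      Tendsto (fun p : ℕ × ℕ => g p.1 * (g p.2)⁻¹) atTop (𝓝 1) → ∃ h, Tendsto g atTop (𝓝 h))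
    -- scale
    (N : FF → ℝ) (Q : List ℕ → Finset FF)
    (huniv : ∀ M : FF → ℝ, M 1 ≤ 0 → (∀ x y, M (x * y) ≤ M x + M y) →
      (∀ i s, ∀ q ∈ Q s, M (q⁻¹ * FreeGroup.of (i, s) * q) ≤ (1 / 4) ^ s.length ∧
        M (q⁻¹ * FreeGroup.of (i, s) * q)⁻¹ ≤ (1 / 4) ^ s.length) →
      ∀ x, M x ≤ N x)
    (hQ1 : ∀ s, 1 ∈ Q s)
    -- representation
    (ρ : FF →* UU) (ξ : FF → HH) (hρ : ∀ w x, ρ w (ξ x) = ξ (w * x))
    (hξ : ∀ x y, inner ℂ (ξ x) (ξ y) = ((Real.exp (-N (x⁻¹ * y)) : ℝ) : ℂ))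
    (hN1 : N 1 = 0)
    -- homomorphism
    (π : FF →* G)
    (hπ1 : ∀ i s, ∀ q ∈ Q s, L ((π q)⁻¹ * π (FreeGroup.of (i, s)) * π q) < (1 / 4) ^ s.length)
    (hπ2 : ∀ s (W : Set G), IsOpen W → ∀ v ∈ W,
      (∀ q ∈ Q s, L ((π q)⁻¹ * v * π q) < (1 / 4) ^ s.length) → ∃ i, π (FreeGroup.of (i, s)) ∈ W)
    -- branches
    (hbranch : ∀ node : ℕ → List ℕ, node 0 = [] → (∀ m, ∃ i, node (m + 1) = i :: node m) →
      ∃ U : UU, ∀ x, Tendsto (fun m => ρ (pw (node m)) x) atTop (𝓝 (U x))) :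
    ∃ R : Set (UU × G),
      (1, 1) ∈ R ∧ (∀ p ∈ R, p⁻¹ ∈ R) ∧ (∀ p ∈ R, ∀ q ∈ R, p * q ∈ R) ∧
      (∀ g, ∃ u, (u, g) ∈ R) ∧
      (∀ (u : ℕ → UU) (g : ℕ → G), (∀ k, (u k, g k) ∈ R) →
        (∀ x, Tendsto (fun k => u k x) atTop (𝓝 x)) → Tendsto g atTop (𝓝 1)) ∧
      (∀ (u : ℕ → UU) (g : ℕ → G) (U : UU), (∀ k, (u k, g k) ∈ R) →
        (∀ x, Tendsto (fun k => u k x) atTop (𝓝 (U x))) → ∃ h, (U, h) ∈ R) := by
  classical
  -- continuity of `π`
  have hLN : ∀ w, L (π w) ≤ N w := by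
    refine huniv (fun w => L (π w)) (by simp [hL1]) (fun x y => ?_) (fun i s q hq => ⟨?_, ?_⟩)
    · rw [map_mul]; exact hLmul _ _
    · rw [map_mul, map_mul, map_inv]; exact (hπ1 i s q hq).le
    · rw [map_inv, hLinv, map_mul, map_mul, map_inv]; exact (hπ1 i s q hq).le
  set H : Subgroup (UU × G) := (ρ.prod π).range with hH
  set R : Subgroup (UU × G) := H.topologicalClosure with hR
  have hRcl : IsClosed (R : Set (UU × G)) := H.isClosed_topologicalClosure
  have hgraph : ∀ w, (ρ w, π w) ∈ R := fun w =>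
    H.le_topologicalClosure ⟨w, rfl⟩
  -- (ii) quantitative
  have hquant : ∀ (U : UU) (g : G), (U, g) ∈ R → ∀ η : ℝ,
      Real.exp (-η) < (inner ℂ (ξ 1) (U (ξ 1)) : ℂ).re → L g ≤ η := by
    intro U g hUg η hη
    by_contra hlt
    push Not at hlt
    set O : Set (UU × G) :=
      {p | Real.exp (-η) < (inner ℂ (ξ 1) (p.1 (ξ 1)) : ℂ).re ∧ η < L p.2} with hO
    have hOo : IsOpen O := by
      have e : O = {p : UU × G | Real.exp (-η) < (inner ℂ (ξ 1) (p.1 (ξ 1)) : ℂ).re} ∩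
        {p : UU × G | η < L p.2} := rfl
      rw [e]
      refine IsOpen.inter (isOpen_lt continuous_const ?_) (isOpen_lt continuous_const ?_)
      · refine Complex.continuous_re.comp ?_
        refine Continuous.inner continuous_const ?_
        exact (UU_continuous_eval (ξ 1)).comp continuous_fst
      · exact hLc.comp continuous_snd
    have hmem : (U, g) ∈ closure (H : Set (UU × G)) := hUg
    rw [mem_closure_iff] at hmem
    obtain ⟨p, hp, ⟨w, rfl⟩⟩ := hmem O hOo ⟨hη, hlt⟩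
    obtain ⟨h1, h2⟩ := hp
    have h1' : Real.exp (-η) < (inner ℂ (ξ 1) ((ρ w) (ξ 1)) : ℂ).re := h1
    have h2' : η < L (π w) := h2
    rw [hρ, hξ, Complex.ofReal_re, Real.exp_lt_exp] at h1'
    simp only [inv_one, one_mul, mul_one] at h1'
    have := hLN w
    linarith
  have hξ11 : (inner ℂ (ξ 1) (ξ 1) : ℂ).re = 1 := by
    rw [hξ]
    simp [hN1]
  -- filter form of (ii)
  have hii : ∀ {ι : Type} (l : Filter ι) (u : ι → UU) (g : ι → G), (∀ k, (u k, g k) ∈ R) →
      Tendsto u l (𝓝 1) → Tendsto g l (𝓝 1) := by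
    intro ι l u g hug hu
    rw [tendsto_def]
    intro W hW
    obtain ⟨ε, hε, hεW⟩ := hLb W hW
    have h1 : Tendsto (fun k => (inner ℂ (ξ 1) (u k (ξ 1)) : ℂ).re) l (𝓝 1) := by
      have h2 := (UU_tendsto.1 hu) (ξ 1)
      have h3 : Tendsto (fun k => (inner ℂ (ξ 1) (u k (ξ 1)) : ℂ).re) l
          (𝓝 (inner ℂ (ξ 1) ((1 : UU) (ξ 1)) : ℂ).re) :=
        (Complex.continuous_re.tendsto _).comp (tendsto_const_nhds.inner h2)
      have h4 : (inner ℂ (ξ 1) ((1 : UU) (ξ 1)) : ℂ).re = 1 := hξ11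
      rwa [h4] at h3
    have h5 : Real.exp (-(ε / 2)) < 1 := by
      rw [Real.exp_lt_one_iff]
      linarith
    filter_upwards [h1.eventually (lt_mem_nhds h5)] with k hk
    exact hεW _ (lt_of_le_of_lt (hquant _ _ (hug k) _ hk) (by linarith))
  refine ⟨R, R.one_mem, fun p hp => R.inv_mem hp, fun p hp q hq => R.mul_mem hp hq, ?_, ?_, ?_⟩
  · -- surjectivity
    set NS : List ℕ → Set G := fun s =>
      {g | ∀ q ∈ Q s, L ((π q)⁻¹ * ((π (pw s))⁻¹ * g) * π q) < (1 / 4) ^ s.length} with hNS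
    have hNSo : ∀ s, IsOpen (NS s) := by
      intro s
      have : NS s = ⋂ q ∈ Q s, {g | L ((π q)⁻¹ * ((π (pw s))⁻¹ * g) * π q) < (1 / 4) ^ s.length} := by
        ext g; simp [hNS]
      rw [this]
      refine isOpen_biInter_finset fun q _ => isOpen_lt (hLc.comp ?_) continuous_const
      fun_prop
    set DS : List ℕ → Set G := fun s => (closure (NS s))ᶜ ∪ ⋃ i, NS (i :: s) with hDS
    have hDSo : ∀ s, IsOpen (DS s) := fun s =>
      (isClosed_closure.isOpen_compl).union (isOpen_iUnion fun i => hNSo _)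
    have hDSd : ∀ s, Dense (DS s) := by
      intro s
      rw [dense_iff_inter_open]
      intro W hW hWne
      by_cases hsub : W ⊆ closure (NS s)
      · obtain ⟨g0, hg0⟩ := hWne
        obtain ⟨g, hgW, hgN⟩ := mem_closure_iff.1 (hsub hg0) W hW hg0
        obtain ⟨i, hi⟩ := hπ2 s ((fun x => π (pw s) * x) ⁻¹' W)
          (hW.preimage (continuous_const_mul _)) ((π (pw s))⁻¹ * g)
          (by simpa using hgW) hgN
        refine ⟨π (pw (i :: s)), ?_, Or.inr (Set.mem_iUnion.2 ⟨i, ?_⟩)⟩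
        · rw [pw, map_mul]
          exact hi
        · intro q _
          simp only [inv_mul_cancel, mul_one, hL1]
          positivity
      · obtain ⟨g, hgW, hgN⟩ := Set.not_subset.1 hsub
        exact ⟨g, hgW, Or.inl hgN⟩
    have hB : ∀ g, (∀ s, g ∈ DS s) → ∃ u, (u, g) ∈ R := by
      intro g hg
      have hstep : ∀ s : {s : List ℕ // g ∈ NS s}, ∃ i, g ∈ NS (i :: s.1) := by
        rintro ⟨s, hs⟩
        rcases hg s with h | h
        · exact absurd (subset_closure hs) h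
        · exact Set.mem_iUnion.1 h
      have h0 : g ∈ NS [] := by
        intro q _
        simp only [List.length_nil, pow_zero]
        linarith [hLhalf ((π q)⁻¹ * ((π (pw []))⁻¹ * g) * π q)]
      let nd : ℕ → {s : List ℕ // g ∈ NS s} := fun n =>
        Nat.rec ⟨[], h0⟩ (fun _ s => ⟨(hstep s).choose :: s.1, (hstep s).choose_spec⟩) n
      have hnd0 : (nd 0).1 = [] := rfl
      have hnds : ∀ m, (nd (m + 1)).1 = (hstep (nd m)).choose :: (nd m).1 := fun m => rfl
      have hlen : ∀ m, (nd m).1.length = m := by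
        intro m
        induction m with
        | zero => simp [hnd0]
        | succ m ih => rw [hnds, List.length_cons, ih]
      obtain ⟨U, hU⟩ := hbranch (fun m => (nd m).1) hnd0 (fun m => ⟨_, hnds m⟩)
      have hπg : Tendsto (fun m => π (pw (nd m).1)) atTop (𝓝 g) := by
        have h1 : Tendsto (fun m => (π (pw (nd m).1))⁻¹ * g) atTop (𝓝 1) := by
          rw [tendsto_def]
          intro W hW
          obtain ⟨ε, hε, hεW⟩ := hLb W hW
          have h2 : Tendsto (fun m : ℕ => ((1 : ℝ) / 4) ^ m) atTop (𝓝 0) :=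
            tendsto_pow_atTop_nhds_zero_of_lt_one (by norm_num) (by norm_num)
          filter_upwards [h2.eventually (gt_mem_nhds hε)] with m hm
          refine hεW _ ?_
          have h3 := (nd m).2 1 (hQ1 _)
          rw [hlen m] at h3
          simp only [map_one, inv_one, one_mul, mul_one] at h3
          exact h3.trans hm
        have h2 : Tendsto (fun m => g * ((π (pw (nd m).1))⁻¹ * g)⁻¹) atTop (𝓝 (g * 1⁻¹)) :=
          tendsto_const_nhds.mul h1.inv
        simpa using h2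
      refine ⟨U, ?_⟩
      have h5 : Tendsto (fun m => (ρ (pw (nd m).1), π (pw (nd m).1))) atTop (𝓝 (U, g)) :=
        Tendsto.prodMk_nhds (UU_tendsto.2 hU) hπg
      exact hRcl.mem_of_tendsto h5 (Eventually.of_forall fun m => hgraph _)
    intro g
    have hden : Dense (⋂ s : List ℕ, (DS s ∩ (fun x => g * x) ⁻¹' DS s)) := by
      apply dense_iInter_of_isOpen
      · intro s
        exact (hDSo s).inter ((hDSo s).preimage (continuous_const_mul g))
      · intro s
        refine (hDSd s).inter_of_isOpen_left ?_ (hDSo s)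
        exact (hDSd s).preimage (isOpenMap_mul_left g)
    obtain ⟨h, hh⟩ := hden.nonempty
    rw [Set.mem_iInter] at hh
    obtain ⟨u1, hu1⟩ := hB h fun s => (hh s).1
    obtain ⟨u2, hu2⟩ := hB (g * h) fun s => (hh s).2
    refine ⟨u2 * u1⁻¹, ?_⟩
    have := R.mul_mem hu2 (R.inv_mem hu1)
    simpa using this
  · intro u g hug hu
    exact hii atTop u g hug (UU_tendsto.2 fun x => by simpa using hu x)
  · intro u g U hug hu
    have hu' : Tendsto u atTop (𝓝 U) := UU_tendsto.2 hu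
    have hfst : Tendsto (fun p : ℕ × ℕ => u p.1) atTop (𝓝 U) := by
      rw [← prod_atTop_atTop_eq]
      exact hu'.comp tendsto_fst
    have hsnd : Tendsto (fun p : ℕ × ℕ => u p.2) atTop (𝓝 U) := by
      rw [← prod_atTop_atTop_eq]
      exact hu'.comp tendsto_snd
    have h1 : Tendsto (fun p : ℕ × ℕ => (g p.1)⁻¹ * g p.2) atTop (𝓝 1) := by
      refine hii _ (fun p : ℕ × ℕ => (u p.1)⁻¹ * u p.2) _
        (fun p => R.mul_mem (R.inv_mem (hug p.1)) (hug p.2)) ?_
      simpa using hfst.inv.mul hsnd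
    have h2 : Tendsto (fun p : ℕ × ℕ => g p.1 * (g p.2)⁻¹) atTop (𝓝 1) := by
      refine hii _ (fun p : ℕ × ℕ => u p.1 * (u p.2)⁻¹) _
        (fun p => R.mul_mem (hug p.1) (R.inv_mem (hug p.2))) ?_
      simpa using hfst.mul hsnd.inv
    obtain ⟨h, hh⟩ := hraikov g h1 h2
    refine ⟨h, ?_⟩
    have h5 : Tendsto (fun m => (u m, g m)) atTop (𝓝 (U, h)) :=
      Tendsto.prodMk_nhds hu' hh
    exact hRcl.mem_of_tendsto h5 (Eventually.of_forall fun m => hug m)

end Pool.Agent.UHz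

end
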