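import Pool.Agent.Lib_helper69.UH.Tower
import Pool.Agent.Lib_helper69.UH.Factor
import Pool.Agent.Lib_helper86.UH.Gns
import Pool.Agent.Lib_helper86.UH.Pi
import Pool.Agent.Lib_helper69.UH.Branch
import Pool.Agent.Lib_helper68.UH.Length
import Pool.Agent.Lib_helper68.UH.Raikov

/-! MP_8215f0_lc: every Polish group is a factor of a closed subgroup of `U(ℓ²)`. -/

set_option autoImplicit false
open Filter Topology

noncomputable section

namespace Pool.Agent.UHz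

theorem factor (G : Type) [TopologicalSpace G] [Group G] [IsTopologicalGroup G] [PolishSpace G] :
    ∃ R : Set (UU × G),
      (1, 1) ∈ R ∧ (∀ p ∈ R, p⁻¹ ∈ R) ∧ (∀ p ∈ R, ∀ q ∈ R, p * q ∈ R) ∧
      (∀ g, ∃ u, (u, g) ∈ R) ∧
      (∀ (u : ℕ → UU) (g : ℕ → G), (∀ k, (u k, g k) ∈ R) →
        (∀ x, Tendsto (fun k => u k x) atTop (𝓝 x)) → Tendsto g atTop (𝓝 1)) ∧
      (∀ (u : ℕ → UU) (g : ℕ → G) (U : UU), (∀ k, (u k, g k) ∈ R) →
        (∀ x, Tendsto (fun k => u k x) atTop (𝓝 (U x))) → ∃ h, (U, h) ∈ R) := by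
  obtain ⟨N, Q, hN1, hN0, hNs, hpsd, hgen, huniv, hQ1, hQA, hev⟩ := exists_scale
  obtain ⟨ρ, ξ, hρ, hξ, hd⟩ := Pool.Agent.UHz86.gns (F := FF) (fun x => Real.exp (-N x))
    (by simp [hN1]) (fun x => by simp only [hNs]) hpsd
  obtain ⟨L, hL1, hL0, hLhalf, hLinv, hLmul, hLc, hLb⟩ := Pool.Agent.Helper68UH.exists_length G
  obtain ⟨π, hπ1, hπ2⟩ := Pool.Agent.UHz86.exists_pi G L hL1 hLc Q hQA
  exact factor_core G L hL1 hLhalf hLinv hLmul hLc hLb (Pool.Agent.Helper68UH.raikov G) N Q huniv hQ1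
    ρ ξ hρ hξ hN1 π hπ1 hπ2
    (branch_conv N Q hN0 hgen hev ρ ξ hρ hξ hN1 hd)

end Pool.Agent.UHz

end
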