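import Pool.Agent.Lib_helper69.UH.Psd

/-! MP_8215f0_lc, module A, part 4: finite sets lie in finite gated sets. -/

set_option autoImplicit false
set_option linter.unusedSectionVars false

open FreeGroup

noncomputable section

namespace Pool.Agent.UHz

variable {α : Type} [DecidableEq α] {low : α → Bool} {N : FreeGroup α → ℝ}
variable (D : GateData low N)

lemma outside_word {L : List (α × Bool)} {a : α} {e : Bool}
    (hred : FreeGroup.IsReduced (L ++ [(a, e)])) {r : FreeGroup α}
    (hr : ¬ (L ++ [(a, e)]) <+: toWord r) :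
    toWord (FreeGroup.mk [(a, !e)] * ((FreeGroup.mk L)⁻¹ * r)) =
      (a, !e) :: toWord ((FreeGroup.mk L)⁻¹ * r) := by
  set b := (FreeGroup.mk L)⁻¹ * r with hb
  rcases toWord_cons_mul (a, !e) b with ⟨L', h1, h2⟩ | h
  · exfalso
    apply hr
    simp only [Bool.not_not] at h1
    have h3 : r = FreeGroup.mk (L ++ [(a, e)] ++ L') := by
      have : r = FreeGroup.mk L * b := by rw [hb]; group
      rw [this, ← mk_toWord (x := b), h1, FreeGroup.mul_mk]
      simp
    rw [h3, toWord_mk_of_isReduced]
    · exact List.prefix_append _ _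
    · have h4 : FreeGroup.IsReduced ([(a, e)] ++ L') := by
        have := isReduced_toWord (x := b)
        rw [h1] at this
        exact this
      exact hred.append_overlap h4 (by simp)
  · exact h

lemma st_append_low {v : List (α × Bool)} (hv : ∀ y ∈ v, low y.1 = true)
    (L : List (α × Bool)) :
    st D (v ++ L) = ((st D L).1, FreeGroup.mk v * (st D L).2) := by
  induction v with
  | nil =>
    rw [← FreeGroup.one_eq_mk]
    simp
  | cons y v ih =>
    rw [List.cons_append, st_low D (hv y (by simp)), ih fun z hz => hv z (by simp [hz])]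
    simp only [← mul_assoc, FreeGroup.mul_mk]
    rfl

theorem NN_gated (hG : Good (LS low) N) {mid : α → Bool} (hmid : ∀ a, low a = true → mid a = true)
    (S : Finset (FreeGroup α)) (hS : ∀ x ∈ S, x ∈ LS mid) :
    ∃ R : Finset (FreeGroup α), S ⊆ R ∧ (∀ x ∈ R, x ∈ LS mid) ∧
      ∀ x : FreeGroup α, ∃ p ∈ R, ∀ r ∈ R,
        NN D (x⁻¹ * r) = NN D (x⁻¹ * p) + NN D (p⁻¹ * r) := by
  classical
  set S' : Finset (FreeGroup α) := insert 1 S with hS'
  have hS'mid : ∀ x ∈ S', x ∈ LS mid := by
    intro x hx
    rcases Finset.mem_insert.1 hx with rfl | h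
    · exact Subgroup.one_mem _
    · exact hS x h
  set T : Finset (List (α × Bool)) := S'.biUnion (fun s =>
    ((toWord s).inits.toFinset).filter (fun t => t.rdropWhile (lo low) = t)) with hT
  have memT : ∀ t, t ∈ T ↔ ∃ s ∈ S', t <+: toWord s ∧ t.rdropWhile (lo low) = t := by
    intro t
    simp [hT]
  set V : Finset (List (α × Bool)) := S'.biUnion (fun s =>
    ((toWord s).sublists.toFinset).filter (fun v => ∀ y ∈ v, low y.1 = true)) with hV
  have memV : ∀ v, v ∈ V ↔ ∃ s ∈ S', v.Sublist (toWord s) ∧ ∀ y ∈ v, low y.1 = true := by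
    intro v
    simp only [hV, Finset.mem_biUnion, Finset.mem_filter, List.mem_toFinset, List.mem_sublists]
  set A : Finset α := (S'.biUnion (fun s => (toWord s).toFinset.image Prod.fst)).filter
    (fun a => low a = false) with hA
  have memA : ∀ (s) (_ : s ∈ S') (y : α × Bool), y ∈ toWord s → low y.1 = false → y.1 ∈ A := by
    intro s hs y hy hl
    simp only [hA, Finset.mem_filter, Finset.mem_biUnion, Finset.mem_image, List.mem_toFinset]
    exact ⟨⟨s, hs, y, hy, rfl⟩, hl⟩
  have memA' : ∀ a ∈ A, low a = false := fun a ha => (Finset.mem_filter.1 ha).2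
  set W : Finset (FreeGroup α) := V.image FreeGroup.mk ∪
    V.biUnion (fun v => A.biUnion (fun a => (D.Q a).image (fun q => FreeGroup.mk v * q))) with hW
  have hWlow : ∀ x ∈ W, x ∈ LS low := by
    intro x hx
    rcases Finset.mem_union.1 hx with h | h
    · obtain ⟨v, hv, rfl⟩ := Finset.mem_image.1 h
      obtain ⟨s, hs, h1, h2⟩ := (memV v).1 hv
      exact mk_mem_LS h2
    · simp only [Finset.mem_biUnion, Finset.mem_image] at h
      obtain ⟨v, hv, a, ha, q, hq, rfl⟩ := h
      obtain ⟨s, hs, h1, h2⟩ := (memV v).1 hv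
      exact Subgroup.mul_mem _ (mk_mem_LS h2) (D.Q_low a (memA' a ha) q hq)
  obtain ⟨R0, hWR, hR0low, hR0⟩ := hG.gated W hWlow
  have hVR0 : ∀ v ∈ V, (FreeGroup.mk v : FreeGroup α) ∈ R0 := fun v hv =>
    hWR (Finset.mem_union_left _ (Finset.mem_image_of_mem _ hv))
  have hVQR0 : ∀ v ∈ V, ∀ a ∈ A, ∀ q ∈ D.Q a, FreeGroup.mk v * q ∈ R0 := by
    intro v hv a ha q hq
    refine hWR (Finset.mem_union_right _ ?_)
    simp only [Finset.mem_biUnion, Finset.mem_image]
    exact ⟨v, hv, a, ha, q, hq, rfl⟩
  have hnilV : [] ∈ V := (memV _).2 ⟨1, Finset.mem_insert_self _ _, by simp, by simp⟩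
  have hnilT : [] ∈ T := (memT _).2 ⟨1, Finset.mem_insert_self _ _, by simp, by simp⟩
  have hQR0 : ∀ a ∈ A, ∀ q ∈ D.Q a, q ∈ R0 := by
    intro a ha q hq
    have := hVQR0 [] hnilV a ha q hq
    rwa [← FreeGroup.one_eq_mk, one_mul] at this
  set R : Finset (FreeGroup α) := T.biUnion (fun t => R0.image (fun k => FreeGroup.mk t * k))
    with hR
  have memR : ∀ r, r ∈ R ↔ ∃ t ∈ T, ∃ k ∈ R0, FreeGroup.mk t * k = r := by
    intro r
    simp only [hR, Finset.mem_biUnion, Finset.mem_image]
  have hTred : ∀ t ∈ T, FreeGroup.IsReduced t := by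
    intro t ht
    obtain ⟨s, hs, h1, h2⟩ := (memT t).1 ht
    exact isReduced_pre isReduced_toWord h1
  have hTtop : ∀ t ∈ T, t.rdropWhile (lo low) = t := fun t ht => by
    obtain ⟨s, hs, h1, h2⟩ := (memT t).1 ht
    exact h2
  -- prefixes of words of `R`
  have hPi : ∀ r ∈ R, ∀ t : List (α × Bool), t.rdropWhile (lo low) = t → t <+: toWord r →
      t ∈ T := by
    intro r hr t ht htr
    obtain ⟨t', ht', k', hk', rfl⟩ := (memR r).1 hr
    rw [toWord_top_mul (hTred t' ht') (hTtop t' ht') (hR0low k' hk')] at htr
    have h1 := prefix_of_prefix_append_low ht (low_of_mem_LS (hR0low k' hk')) htr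
    obtain ⟨s, hs, h2, h3⟩ := (memT t').1 ht'
    exact (memT t).2 ⟨s, hs, h1.trans h2, ht⟩
  -- gates of `R` on the cosets of `T`
  have hGam : ∀ t ∈ T, ∀ r ∈ R, gam D ((FreeGroup.mk t)⁻¹ * r) ∈ R0 := by
    intro t ht r hr
    obtain ⟨t', ht', k', hk', rfl⟩ := (memR r).1 hr
    have hk'l := hR0low k' hk'
    have hword := toWord_top_mul (hTred t' ht') (hTtop t' ht') hk'l
    obtain ⟨s, hs, hts, -⟩ := (memT t).1 ht
    obtain ⟨s', hs', hts', -⟩ := (memT t').1 ht'
    by_cases hpre : t <+: t'
    · obtain ⟨w, rfl⟩ := hpre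
      have e1 : (FreeGroup.mk t)⁻¹ * (FreeGroup.mk (t ++ w) * k') = FreeGroup.mk w * k' := by
        rw [← FreeGroup.mul_mk]; group
      rw [e1]
      by_cases hwl : ∀ y ∈ w, low y.1 = true
      · have hw : w = [] := by
          by_contra hne
          have h1 := hTtop _ ht'
          rw [List.rdropWhile_eq_self_iff] at h1
          have h2 := h1 (by simp [hne])
          rw [List.getLast_append_of_ne_nil _ hne] at h2
          exact h2 (hwl _ (List.getLast_mem hne))
        subst hw
        rw [← FreeGroup.one_eq_mk, one_mul, gam_LS D hk'l]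
        exact hk'
      · -- first high letter of `w`
        have hsplit : w.takeWhile (lo low) ++ w.dropWhile (lo low) = w :=
          List.takeWhile_append_dropWhile
        have hd : w.dropWhile (lo low) ≠ [] := by
          intro h
          apply hwl
          rw [List.dropWhile_eq_nil_iff] at h
          exact h
        obtain ⟨x, w', hx⟩ := List.exists_cons_of_ne_nil hd
        have hxh : low x.1 = false := by
          have := List.head_dropWhile_not (p := lo low) hd
          simp only [hx, List.head_cons] at this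
          simpa [lo] using this
        set v := w.takeWhile (lo low) with hv
        have hvl : ∀ y ∈ v, low y.1 = true := fun y hy => by
          have := List.mem_takeWhile_imp (p := lo low) hy
          exact this
        have hw : w = v ++ x :: w' := by rw [← hsplit, hx]
        have hword2 : toWord (FreeGroup.mk w * k') = v ++ x :: (w' ++ toWord k') := by
          have e2 : FreeGroup.mk w * k' = FreeGroup.mk (w ++ toWord k') := by
            rw [← FreeGroup.mul_mk, mk_toWord]
          rw [e2, toWord_mk_of_isReduced]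
          · rw [hw]; simp
          · have h1 := isReduced_toWord (x := FreeGroup.mk (t ++ w) * k')
            rw [hword] at h1
            rw [List.append_assoc] at h1
            exact isReduced_right h1
        have hsub : w.Sublist (toWord s') :=
          (List.sublist_append_right t w).trans hts'.sublist
        have hvV : v ∈ V := by
          refine (memV v).2 ⟨s', hs', ?_, hvl⟩
          exact (List.takeWhile_sublist _).trans hsub
        have hxA : x.1 ∈ A := by
          refine memA s' hs' x (hsub.subset ?_) hxh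
          rw [hw]; simp
        rw [gam, hword2, st_append_low D hvl, st_high D hxh]
        exact hVQR0 v hvV x.1 hxA _ (D.p_mem _ hxh _ (st_mem D _))
    · have hpre' : ¬ t <+: toWord (FreeGroup.mk t' * k') := by
        intro h
        rw [hword] at h
        exact hpre (prefix_of_prefix_append_low (hTtop t ht) (low_of_mem_LS hk'l) h)
      have hne : t ≠ [] := by
        rintro rfl
        exact hpre (List.nil_prefix)
      obtain ⟨L, a, e, rfl, ha⟩ := top_shape (hTtop t ht) hne
      have e1 : (FreeGroup.mk (L ++ [(a, e)]) : FreeGroup α)⁻¹ * (FreeGroup.mk t' * k') =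
          FreeGroup.mk [(a, !e)] * ((FreeGroup.mk L)⁻¹ * (FreeGroup.mk t' * k')) := by
        rw [← FreeGroup.mul_mk, mul_inv_rev, mk_singleton_inv, mul_assoc]
      have h2 := outside_word (hTred _ ht) hpre'
      obtain ⟨h3, -⟩ := high_mul_of_word D (x := (a, !e)) ha h2
      rw [e1, h3]
      refine hQR0 a ?_ _ (D.p_mem a ha _ (gam_mem D _))
      exact memA s hs (a, e) (hts.subset (by simp)) ha
  refine ⟨R, ?_, ?_, ?_⟩
  · intro s hs
    refine (memR s).2 ⟨top low s, ?_, tl low s, ?_, mk_top_mul_tl low s⟩
    · exact (memT _).2 ⟨s, Finset.mem_insert_of_mem hs, top_prefix low s, top_top low s⟩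
    · refine hVR0 _ ((memV _).2 ⟨s, Finset.mem_insert_of_mem hs, ?_, ?_⟩)
      · exact (List.rtakeWhile_suffix _ _).sublist
      · intro y hy
        have := List.mem_rtakeWhile_imp (p := lo low) hy
        exact this
  · intro r hr
    obtain ⟨t, ht, k, hk, rfl⟩ := (memR r).1 hr
    obtain ⟨s, hs, h1, h2⟩ := (memT t).1 ht
    refine Subgroup.mul_mem _ (mk_mem_LS fun y hy => ?_) ?_
    · exact low_of_mem_LS (hS'mid s hs) y (h1.subset hy)
    · rw [mem_LS_iff]
      intro y hy
      exact hmid _ (low_of_mem_LS (hR0low k hk) y hy)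
  · have main : ∀ (n : ℕ) (x : FreeGroup α), (top low x).length ≤ n → ∃ p ∈ R, ∀ r ∈ R,
        NN D (x⁻¹ * r) = NN D (x⁻¹ * p) + NN D (p⁻¹ * r) := by
      intro n
      induction n using Nat.strong_induction_on with
      | _ n ih =>
      intro x hxn
      set t := top low x with ht
      set k := tl low x with hk
      have hkl : k ∈ LS low := tl_mem low x
      have hx : x = FreeGroup.mk t * k := (mk_top_mul_tl low x).symm
      by_cases htT : t ∈ T
      · obtain ⟨p0, hp0, hgate⟩ := hR0 k hkl
        have hp0l := hR0low p0 hp0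
        refine ⟨FreeGroup.mk t * p0, (memR _).2 ⟨t, htT, p0, hp0, rfl⟩, ?_⟩
        intro r hr
        have e1 : x⁻¹ * r = k⁻¹ * ((FreeGroup.mk t)⁻¹ * r) := by rw [hx]; group
        have e2 : x⁻¹ * (FreeGroup.mk t * p0) = k⁻¹ * p0 := by rw [hx]; group
        have e3 : (FreeGroup.mk t * p0)⁻¹ * r = p0⁻¹ * ((FreeGroup.mk t)⁻¹ * r) := by group
        rw [e1, e2, e3, NN_LS_mul D (Subgroup.inv_mem _ hkl), NN_LS_mul D (Subgroup.inv_mem _ hp0l),
          NN_LS D (Subgroup.mul_mem _ (Subgroup.inv_mem _ hkl) hp0l), hgate _ (hGam t htT r hr)]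
        ring
      · have hne : t ≠ [] := by
          intro h
          exact htT (h ▸ hnilT)
        obtain ⟨L, a, e, hL, ha⟩ := top_shape (by rw [ht]; exact top_top low x) hne
        have htred : FreeGroup.IsReduced (L ++ [(a, e)]) := by
          rw [← hL]; exact top_isReduced low x
        have hLred : FreeGroup.IsReduced L := isReduced_left htred
        have hlen := top_length_mk_mul (low := low) hLred (D.Q_low a ha _ (D.p_mem a ha k hkl))
        obtain ⟨p, hp, hgate⟩ := ih L.length (by
          rw [hL] at hxn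
          simp only [List.length_append, List.length_singleton] at hxn
          omega) (FreeGroup.mk L * D.p a k) hlen
        have hdesc : ∀ r ∈ R, NN D (x⁻¹ * r) =
            N ((D.p a k)⁻¹ * k) + D.g a + NN D ((FreeGroup.mk L * D.p a k)⁻¹ * r) := by
          intro r hr
          have h1 : ¬ (L ++ [(a, e)]) <+: toWord r := by
            intro h
            apply htT
            rw [hL]
            exact hPi r hr _ (isTop_append L ha) h
          have h2 := descent D hG ha htred hkl h1
          rw [← hL, ← hx] at h2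
          exact h2
        refine ⟨p, hp, fun r hr => ?_⟩
        rw [hdesc r hr, hdesc p hp, hgate r hr]
        ring
    intro x
    exact main _ x le_rfl

end Pool.Agent.UHz

end
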