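import Pool.Agent.Lib_helper69.UH.Step

/-! MP_8215f0_lc, module A, part 3: positive definiteness of `exp (-NN)`. -/

set_option autoImplicit false
set_option linter.unusedSectionVars false

open FreeGroup

noncomputable section

namespace Pool.Agent.UHz

variable {α : Type} [DecidableEq α] {low : α → Bool} {N : FreeGroup α → ℝ}
variable (D : GateData low N)

lemma gate_psd (hG : Good (LS low) N) {a : α} (ha : low a = false) (ι : Type) (s : Finset ι)
    (k : ι → FreeGroup α) (hk : ∀ i ∈ s, k i ∈ LS low) (c : ι → ℝ) (θ : ℝ) (hθ : θ ≤ 1) :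
    0 ≤ ∑ i ∈ s, ∑ j ∈ s, c i * c j * (Real.exp (-N ((k i)⁻¹ * k j)) -
      θ * Real.exp (-(N ((D.p a (k i))⁻¹ * k i) + N ((D.p a (k i))⁻¹ * D.p a (k j)) +
        N ((D.p a (k j))⁻¹ * k j)))) := by
  set r : ι → FreeGroup α := fun i => D.p a (k i) with hr
  have hrQ : ∀ i ∈ s, r i ∈ D.Q a := fun i hi => D.p_mem a ha _ (hk i hi)
  have hrl : ∀ i ∈ s, r i ∈ LS low := fun i hi => D.Q_low a ha _ (hrQ i hi)
  set w : ι → ℝ := fun i => Real.exp (-N ((r i)⁻¹ * k i)) with hw
  set E : ι → ι → ℝ := fun i j =>
    Real.exp (-(N ((r i)⁻¹ * k i) + N ((r i)⁻¹ * r j) + N ((r j)⁻¹ * k j))) with hE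
  have hEw : ∀ i j, E i j = w i * w j * Real.exp (-N ((r i)⁻¹ * r j)) := by
    intro i j
    simp only [hE, hw]
    rw [← Real.exp_add, ← Real.exp_add]
    congr 1; ring
  have A1 : 0 ≤ ∑ i ∈ s, ∑ j ∈ s, c i * c j * E i j := by
    have := hG.psd ι s r (fun i => c i * w i) hrl
    refine this.trans_eq (Finset.sum_congr rfl fun i _ => Finset.sum_congr rfl fun j _ => ?_)
    rw [hEw]; ring
  have A2 : 0 ≤ ∑ i ∈ s, ∑ j ∈ s, c i * c j * (Real.exp (-N ((k i)⁻¹ * k j)) - E i j) := by
    have := hG.psd (ι ⊕ ι) (s.disjSum s) (Sum.elim k r) (Sum.elim c (fun i => -(c i * w i)))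
      (by
        intro i hi
        rcases Finset.mem_disjSum.1 hi with ⟨j, hj, rfl⟩ | ⟨j, hj, rfl⟩
        · exact hk j hj
        · exact hrl j hj)
    refine this.trans_eq ?_
    simp only [Finset.sum_disjSum, Sum.elim_inl, Sum.elim_inr]
    rw [← Finset.sum_add_distrib]
    refine Finset.sum_congr rfl fun i hi => ?_
    rw [← Finset.sum_add_distrib, ← Finset.sum_add_distrib, ← Finset.sum_add_distrib]
    refine Finset.sum_congr rfl fun j hj => ?_
    have e1 : Real.exp (-N ((k i)⁻¹ * r j)) = w i * Real.exp (-N ((r i)⁻¹ * r j)) := by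
      have h := D.gate a ha (k i) (hk i hi) (r j) (hrQ j hj)
      have h2 : N ((k i)⁻¹ * r i) = N ((r i)⁻¹ * k i) := by
        rw [← hG.symm _ (Subgroup.mul_mem _ (Subgroup.inv_mem _ (hk i hi)) (hrl i hi))]; simp
      rw [h]
      show Real.exp (-(N ((k i)⁻¹ * r i) + N ((r i)⁻¹ * r j))) = _
      rw [h2, neg_add, Real.exp_add]
    have e2 : Real.exp (-N ((r i)⁻¹ * k j)) = w j * Real.exp (-N ((r i)⁻¹ * r j)) := by
      have h := gate' D hG ha (hk j hj) (hrQ i hi)
      rw [h]
      show Real.exp (-(N ((r i)⁻¹ * r j) + N ((r j)⁻¹ * k j))) = _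
      rw [neg_add, Real.exp_add, mul_comm]
    rw [e1, e2, hEw]
    ring
  have e : ∑ i ∈ s, ∑ j ∈ s, c i * c j * (Real.exp (-N ((k i)⁻¹ * k j)) - θ * E i j) =
      (∑ i ∈ s, ∑ j ∈ s, c i * c j * (Real.exp (-N ((k i)⁻¹ * k j)) - E i j)) +
        (1 - θ) * ∑ i ∈ s, ∑ j ∈ s, c i * c j * E i j := by
    rw [Finset.mul_sum, ← Finset.sum_add_distrib]
    refine Finset.sum_congr rfl fun i _ => ?_
    rw [Finset.mul_sum, ← Finset.sum_add_distrib]
    refine Finset.sum_congr rfl fun j _ => ?_
    ring
  show 0 ≤ ∑ i ∈ s, ∑ j ∈ s, c i * c j * (Real.exp (-N ((k i)⁻¹ * k j)) - θ * E i j)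
  rw [e]
  have := mul_nonneg (sub_nonneg.2 hθ) A1
  linarith

lemma top_length_mk_mul {L : List (α × Bool)} (hL : FreeGroup.IsReduced L) {k : FreeGroup α}
    (hk : k ∈ LS low) : (top low (FreeGroup.mk L * k)).length ≤ L.length := by
  have e : FreeGroup.mk L * k =
      FreeGroup.mk (L.rdropWhile (lo low)) * (FreeGroup.mk (L.rtakeWhile (lo low)) * k) := by
    rw [← mul_assoc, FreeGroup.mul_mk, List.rdropWhile_append_rtakeWhile]
  rw [e, top_mk_mul]
  · exact (List.rdropWhile_prefix _ _).length_le
  · exact isReduced_pre hL (List.rdropWhile_prefix _ _)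
  · exact List.rdropWhile_idempotent _ _
  · exact Subgroup.mul_mem _ (mk_mem_LS fun y hy => by
      have := List.mem_rtakeWhile_imp (p := lo low) hy
      exact this) hk

theorem NN_psd (hG : Good (LS low) N) (ι : Type) (s : Finset ι) : ∀ (n : ℕ)
    (x : ι → FreeGroup α) (c : ι → ℝ), (∑ i ∈ s, (top low (x i)).length ≤ n) →
    0 ≤ ∑ i ∈ s, ∑ j ∈ s, c i * c j * Real.exp (-NN D ((x i)⁻¹ * x j)) := by
  intro n
  induction n using Nat.strong_induction_on with
  | _ n ih =>
  intro x c hn
  by_cases hall : ∀ i ∈ s, top low (x i) = []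
  · -- all in the low subgroup
    have hlow : ∀ i ∈ s, x i ∈ LS low := by
      intro i hi
      rw [mem_LS_iff]
      have := hall i hi
      rw [top, List.rdropWhile_eq_nil_iff] at this
      exact this
    have := hG.psd ι s x c hlow
    refine this.trans_eq (Finset.sum_congr rfl fun i hi => Finset.sum_congr rfl fun j hj => ?_)
    rw [NN_LS D (Subgroup.mul_mem _ (Subgroup.inv_mem _ (hlow i hi)) (hlow j hj))]
  · push Not at hall
    obtain ⟨i1, hi1, hi1'⟩ := hall
    obtain ⟨i0, hi0, hmax⟩ := Finset.exists_max_image s (fun i => (top low (x i)).length) ⟨i1, hi1⟩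
    set t := top low (x i0) with ht
    have htne : t ≠ [] := by
      intro h
      have := hmax i1 hi1
      rw [h] at this
      simp only [List.length_nil, nonpos_iff_eq_zero, List.length_eq_zero_iff] at this
      exact hi1' this
    obtain ⟨L, a, e, hLt, ha⟩ := top_shape (top_top low (x i0)) htne
    rw [← ht] at hLt
    have htred : FreeGroup.IsReduced (L ++ [(a, e)]) := hLt ▸ top_isReduced low (x i0)
    have hLred : FreeGroup.IsReduced L := isReduced_left htred
    -- the data for the points in the top coset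
    set k : ι → FreeGroup α := fun i => tl low (x i) with hk
    have hkl : ∀ i, k i ∈ LS low := fun i => tl_mem low (x i)
    set r : ι → FreeGroup α := fun i => D.p a (k i) with hr
    have hrl : ∀ i, r i ∈ LS low := fun i => D.Q_low a ha _ (D.p_mem a ha _ (hkl i))
    set P : ι → Prop := fun i => top low (x i) = t with hP
    classical
    have hxP : ∀ i, P i → x i = FreeGroup.mk (L ++ [(a, e)]) * k i := by
      intro i hi
      rw [← hLt, ← (show top low (x i) = t from hi)]
      exact (mk_top_mul_tl low (x i)).symm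
    set x' : ι → FreeGroup α := fun i => if P i then FreeGroup.mk L * r i else x i with hx'
    set c' : ι → ℝ := fun i =>
      if P i then Real.exp (-(N ((r i)⁻¹ * k i) + D.g a)) * c i else c i with hc'
    have hmeas : ∑ i ∈ s, (top low (x' i)).length < ∑ i ∈ s, (top low (x i)).length := by
      apply Finset.sum_lt_sum
      · intro i _
        simp only [hx']
        split_ifs with h
        · have h1 := top_length_mk_mul (low := low) hLred (hrl i)
          rw [show top low (x i) = t from h, hLt]
          simp only [List.length_append, List.length_singleton]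
          omega
        · exact le_rfl
      · refine ⟨i0, hi0, ?_⟩
        have h : P i0 := rfl
        simp only [hx', if_pos h]
        have h1 := top_length_mk_mul (low := low) hLred (hrl i0)
        rw [← ht, hLt]
        simp only [List.length_append, List.length_singleton]
        omega
    have ih' := ih _ (lt_of_lt_of_le hmeas hn) x' c' le_rfl
    -- descent
    have hdesc : ∀ i j, P i → j ∈ s → ¬ P j →
        NN D ((x i)⁻¹ * x j) = N ((r i)⁻¹ * k i) + D.g a + NN D ((x' i)⁻¹ * x' j) := by
      intro i j hi hj hPj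
      have h1 : ¬ (L ++ [(a, e)]) <+: toWord (x j) := by
        intro h
        rw [← hLt] at h
        have e1 : toWord (x j) = top low (x j) ++ (toWord (x j)).rtakeWhile (lo low) :=
          List.rdropWhile_append_rtakeWhile.symm
        rw [e1] at h
        have h2 : t <+: top low (x j) := prefix_of_prefix_append_low (low := low)
          (by rw [ht]; exact top_top low (x i0))
          (fun y hy => by
            have := List.mem_rtakeWhile_imp (p := lo low) hy
            exact this) h
        exact hPj (h2.eq_of_length (le_antisymm h2.length_le (hmax j hj))).symm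
      have h2 := descent D hG ha htred (hkl i) h1
      rw [← hxP i hi] at h2
      rw [h2]
      simp only [hx', if_pos hi, if_neg hPj]
      rfl
    have key : ∀ i ∈ s, ∀ j ∈ s,
        c i * c j * Real.exp (-NN D ((x i)⁻¹ * x j)) =
          c' i * c' j * Real.exp (-NN D ((x' i)⁻¹ * x' j)) +
          (if P i then (if P j then c i * c j * (Real.exp (-N ((k i)⁻¹ * k j)) -
            Real.exp (-(2 * D.g a)) *
            Real.exp (-(N ((r i)⁻¹ * k i) + N ((r i)⁻¹ * r j) + N ((r j)⁻¹ * k j)))) else 0)
            else 0) := by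
      intro i hi j hj
      by_cases hPi : P i
      · by_cases hPj : P j
        · rw [if_pos hPi, if_pos hPj]
          have e1 : (x i)⁻¹ * x j = (k i)⁻¹ * k j := by
            rw [hxP i hPi, hxP j hPj]; group
          have e2 : (x' i)⁻¹ * x' j = (r i)⁻¹ * r j := by
            simp only [hx', if_pos hPi, if_pos hPj]; group
          rw [e1, e2, NN_LS D (Subgroup.mul_mem _ (Subgroup.inv_mem _ (hkl i)) (hkl j)),
            NN_LS D (Subgroup.mul_mem _ (Subgroup.inv_mem _ (hrl i)) (hrl j))]
          simp only [hc', if_pos hPi, if_pos hPj]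
          have e3 : Real.exp (-(N ((r i)⁻¹ * k i) + D.g a)) *
              Real.exp (-(N ((r j)⁻¹ * k j) + D.g a)) * Real.exp (-N ((r i)⁻¹ * r j)) =
              Real.exp (-(2 * D.g a)) *
              Real.exp (-(N ((r i)⁻¹ * k i) + N ((r i)⁻¹ * r j) + N ((r j)⁻¹ * k j))) := by
            rw [← Real.exp_add, ← Real.exp_add, ← Real.exp_add]
            congr 1; ring
          linear_combination (-(c i * c j)) * e3
        · rw [if_pos hPi, if_neg hPj, add_zero, hdesc i j hPi hj hPj]
          simp only [hc', if_pos hPi, if_neg hPj]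
          rw [neg_add, Real.exp_add]
          ring
      · by_cases hPj : P j
        · rw [if_neg hPi, add_zero]
          have h1 : NN D ((x i)⁻¹ * x j) = NN D ((x j)⁻¹ * x i) := by
            rw [← NN_symm D hG]; simp
          have h2 : NN D ((x' i)⁻¹ * x' j) = NN D ((x' j)⁻¹ * x' i) := by
            rw [← NN_symm D hG]; simp
          rw [h1, h2, hdesc j i hPj hi hPi]
          simp only [hc', if_pos hPj, if_neg hPi]
          rw [neg_add, Real.exp_add]
          ring
        · rw [if_neg hPi, add_zero]
          simp only [hc', hx', if_neg hPi, if_neg hPj]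
    rw [Finset.sum_congr rfl fun i hi => Finset.sum_congr rfl fun j hj => key i hi j hj]
    simp only [Finset.sum_add_distrib]
    refine add_nonneg ih' ?_
    have hgp := gate_psd D hG ha ι (s.filter P) k (fun i _ => hkl i) c (Real.exp (-(2 * D.g a)))
      (by
        rw [Real.exp_le_one_iff]
        have := D.g_nonneg a
        linarith)
    refine hgp.trans_eq ?_
    rw [Finset.sum_filter]
    refine Finset.sum_congr rfl fun i _ => ?_
    split_ifs with h
    · rw [Finset.sum_filter]
    · simp

end Pool.Agent.UHz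

end
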