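import Pool.Agent.Lib_helper69.UH.Words

/-! MP_8215f0_lc, module A, part 2: one level of the construction. -/

set_option autoImplicit false
set_option linter.unusedSectionVars false

open FreeGroup

noncomputable section

namespace Pool.Agent.UHz

variable {α : Type} [DecidableEq α]

/-- the invariants of a level -/
structure Good (H : Subgroup (FreeGroup α)) (N : FreeGroup α → ℝ) : Prop where
  one : N 1 = 0
  nonneg : ∀ x ∈ H, 0 ≤ N x
  symm : ∀ x ∈ H, N x⁻¹ = N x
  tri : ∀ x ∈ H, ∀ y ∈ H, N (x * y) ≤ N x + N y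
  psd : ∀ (ι : Type) (s : Finset ι) (x : ι → FreeGroup α) (c : ι → ℝ), (∀ i ∈ s, x i ∈ H) →
    0 ≤ ∑ i ∈ s, ∑ j ∈ s, c i * c j * Real.exp (-N ((x i)⁻¹ * x j))
  gated : ∀ S : Finset (FreeGroup α), (∀ x ∈ S, x ∈ H) →
    ∃ R : Finset (FreeGroup α), S ⊆ R ∧ (∀ x ∈ R, x ∈ H) ∧
      ∀ x ∈ H, ∃ p ∈ R, ∀ r ∈ R, N (x⁻¹ * r) = N (x⁻¹ * p) + N (p⁻¹ * r)

/-- gates for the high letters -/
structure GateData (low : α → Bool) (N : FreeGroup α → ℝ) where
  p : α → FreeGroup α → FreeGroup α
  Q : α → Finset (FreeGroup α)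
  g : α → ℝ
  g_nonneg : ∀ a, 0 ≤ g a
  Q_low : ∀ a, low a = false → ∀ q ∈ Q a, q ∈ LS low
  p_mem : ∀ a, low a = false → ∀ x ∈ LS low, p a x ∈ Q a
  gate : ∀ a, low a = false → ∀ x ∈ LS low, ∀ q ∈ Q a,
    N (x⁻¹ * q) = N (x⁻¹ * p a x) + N ((p a x)⁻¹ * q)

variable {low : α → Bool} {N : FreeGroup α → ℝ}

/-- the state machine -/
def st (D : GateData low N) : List (α × Bool) → ℝ × FreeGroup α
  | [] => (0, 1)
  | x :: L =>
    if low x.1 = true then ((st D L).1, FreeGroup.mk [x] * (st D L).2)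
    else ((st D L).1 + N ((D.p x.1 (st D L).2)⁻¹ * (st D L).2) + D.g x.1, D.p x.1 (st D L).2)

/-- distance to the low subgroup -/
def ell (D : GateData low N) (b : FreeGroup α) : ℝ := (st D (toWord b)).1

/-- gate in the low subgroup -/
def gam (D : GateData low N) (b : FreeGroup α) : FreeGroup α := (st D (toWord b)).2

/-- the extended length -/
def NN (D : GateData low N) (b : FreeGroup α) : ℝ := ell D b + N (gam D b)

variable (D : GateData low N)

lemma st_low {x : α × Bool} (hx : low x.1 = true) (L : List (α × Bool)) :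
    st D (x :: L) = ((st D L).1, FreeGroup.mk [x] * (st D L).2) := by
  rw [st, if_pos hx]

lemma st_high {x : α × Bool} (hx : low x.1 = false) (L : List (α × Bool)) :
    st D (x :: L) = ((st D L).1 + N ((D.p x.1 (st D L).2)⁻¹ * (st D L).2) + D.g x.1,
      D.p x.1 (st D L).2) := by
  rw [st, if_neg (by simp [hx])]

lemma st_mem (L : List (α × Bool)) : (st D L).2 ∈ LS low := by
  induction L with
  | nil => exact Subgroup.one_mem _
  | cons x L ih =>
    cases hx : low x.1
    · rw [st_high D hx]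
      exact D.Q_low _ hx _ (D.p_mem _ hx _ ih)
    · rw [st_low D hx]
      exact Subgroup.mul_mem _ (mk_singleton_mem hx) ih

lemma gam_mem (b : FreeGroup α) : gam D b ∈ LS low := st_mem D _

lemma st_nonneg (hG : Good (LS low) N) (L : List (α × Bool)) : 0 ≤ (st D L).1 := by
  induction L with
  | nil => exact le_rfl
  | cons x L ih =>
    cases hx : low x.1
    · rw [st_high D hx]
      have h1 := hG.nonneg ((D.p x.1 (st D L).2)⁻¹ * (st D L).2)
        (Subgroup.mul_mem _ (Subgroup.inv_mem _ (D.Q_low _ hx _ (D.p_mem _ hx _ (st_mem D L))))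
          (st_mem D L))
      have h2 := D.g_nonneg x.1
      simp only
      linarith
    · rw [st_low D hx]
      exact ih

lemma toWord_cons_mul (x : α × Bool) (b : FreeGroup α) :
    (∃ L, toWord b = (x.1, !x.2) :: L ∧ toWord (FreeGroup.mk [x] * b) = L) ∨
      toWord (FreeGroup.mk [x] * b) = x :: toWord b := by
  have h1 : FreeGroup.mk [x] * b = FreeGroup.mk (x :: toWord b) := by
    conv_lhs => rw [← mk_toWord (x := b)]
    rw [FreeGroup.mul_mk]; rfl
  rw [h1, toWord_mk, reduce.cons, reduce_toWord]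
  cases hL : toWord b with
  | nil => right; rfl
  | cons y L =>
    simp only
    by_cases hy : x.1 = y.1 ∧ x.2 = !y.2
    · left
      refine ⟨L, ?_, ?_⟩
      · rw [hy.1, hy.2]; simp
      · rw [if_pos hy]
    · right
      rw [if_neg hy]

omit [DecidableEq α] in
lemma mk_singleton_inv (x : α × Bool) :
    (FreeGroup.mk [x] : FreeGroup α)⁻¹ = FreeGroup.mk [(x.1, !x.2)] := by
  simp [FreeGroup.inv_mk, FreeGroup.invRev]

/-- left multiplication by a low letter -/
lemma st_low_mul {x : α × Bool} (hx : low x.1 = true) (b : FreeGroup α) :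
    st D (toWord (FreeGroup.mk [x] * b)) =
      ((st D (toWord b)).1, FreeGroup.mk [x] * (st D (toWord b)).2) := by
  rcases toWord_cons_mul x b with ⟨L, h1, h2⟩ | h
  · rw [h1, h2, st_low D (x := (x.1, !x.2)) hx, ← mk_singleton_inv]
    simp only [mul_inv_cancel_left, Prod.mk.eta]
  · rw [h, st_low D hx]

/-- left equivariance -/
lemma st_LS_mul {t : FreeGroup α} (ht : t ∈ LS low) (b : FreeGroup α) :
    st D (toWord (t * b)) = ((st D (toWord b)).1, t * (st D (toWord b)).2) := by
  induction ht using Subgroup.closure_induction generalizing b with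
  | mem x hx =>
    obtain ⟨a, ha, rfl⟩ := hx
    exact st_low_mul D (x := (a, true)) ha b
  | one => simp
  | mul x y _ _ hx hy => rw [mul_assoc, hx, hy, mul_assoc]
  | inv x _ hx =>
    have := hx (x⁻¹ * b)
    rw [mul_inv_cancel_left] at this
    rw [this]
    simp

lemma ell_LS_mul {t : FreeGroup α} (ht : t ∈ LS low) (b : FreeGroup α) :
    ell D (t * b) = ell D b := by
  rw [ell, st_LS_mul D ht]; rfl

lemma gam_LS_mul {t : FreeGroup α} (ht : t ∈ LS low) (b : FreeGroup α) :
    gam D (t * b) = t * gam D b := by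
  rw [gam, st_LS_mul D ht]; rfl

lemma NN_LS_mul {t : FreeGroup α} (ht : t ∈ LS low) (b : FreeGroup α) :
    NN D (t * b) = ell D b + N (t * gam D b) := by
  rw [NN, ell_LS_mul D ht, gam_LS_mul D ht]

lemma ell_one : ell D 1 = 0 := by simp [ell, st]
lemma gam_one : gam D 1 = 1 := by simp [gam, st]

lemma ell_LS {t : FreeGroup α} (ht : t ∈ LS low) : ell D t = 0 := by
  have := ell_LS_mul D ht 1
  rwa [mul_one, ell_one] at this

lemma gam_LS {t : FreeGroup α} (ht : t ∈ LS low) : gam D t = t := by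
  have := gam_LS_mul D ht 1
  rwa [mul_one, gam_one, mul_one] at this

lemma NN_LS {t : FreeGroup α} (ht : t ∈ LS low) : NN D t = N t := by
  rw [NN, ell_LS D ht, gam_LS D ht, zero_add]

/-- left multiplication by a high letter -/
lemma high_mul {x : α × Bool} (hx : low x.1 = false) (b : FreeGroup α) :
    (gam D (FreeGroup.mk [x] * b) = D.p x.1 (gam D b) ∧
      ell D (FreeGroup.mk [x] * b) = ell D b + N ((D.p x.1 (gam D b))⁻¹ * gam D b) + D.g x.1) ∨
    (gam D b = D.p x.1 (gam D (FreeGroup.mk [x] * b)) ∧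
      ell D b = ell D (FreeGroup.mk [x] * b) +
        N ((D.p x.1 (gam D (FreeGroup.mk [x] * b)))⁻¹ * gam D (FreeGroup.mk [x] * b)) +
        D.g x.1) := by
  rcases toWord_cons_mul x b with ⟨L, h1, h2⟩ | h
  · right
    simp only [gam, ell]
    rw [h1, h2, st_high D (x := (x.1, !x.2)) hx]
    simp
  · left
    simp only [gam, ell]
    rw [h, st_high D hx]
    simp

lemma high_mul_of_word {x : α × Bool} (hx : low x.1 = false) {b : FreeGroup α}
    (h : toWord (FreeGroup.mk [x] * b) = x :: toWord b) :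
    (gam D (FreeGroup.mk [x] * b) = D.p x.1 (gam D b) ∧
      ell D (FreeGroup.mk [x] * b) = ell D b + N ((D.p x.1 (gam D b))⁻¹ * gam D b) + D.g x.1) := by
  simp only [gam, ell]
  rw [h, st_high D hx]
  simp

section good
variable (hG : Good (LS low) N)
include hG

/-- the gate identity in symmetric form -/
lemma gate' {a : α} (ha : low a = false) {x q : FreeGroup α} (hx : x ∈ LS low) (hq : q ∈ D.Q a) :
    N (q⁻¹ * x) = N (q⁻¹ * D.p a x) + N ((D.p a x)⁻¹ * x) := by
  have hq' := D.Q_low a ha q hq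
  have hp := D.Q_low a ha _ (D.p_mem a ha x hx)
  have h := D.gate a ha x hx q hq
  have e1 : N (x⁻¹ * q) = N (q⁻¹ * x) := by
    rw [← hG.symm _ (Subgroup.mul_mem _ (Subgroup.inv_mem _ hx) hq')]; simp
  have e2 : N (x⁻¹ * D.p a x) = N ((D.p a x)⁻¹ * x) := by
    rw [← hG.symm _ (Subgroup.mul_mem _ (Subgroup.inv_mem _ hx) hp)]; simp
  have e3 : N ((D.p a x)⁻¹ * q) = N (q⁻¹ * D.p a x) := by
    rw [← hG.symm _ (Subgroup.mul_mem _ (Subgroup.inv_mem _ hp) hq')]; simp
  rw [e1, e2, e3] at h
  linarith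

lemma NN_gen_mul {x : α × Bool} (hx : low x.1 = false) {q : FreeGroup α} (hq : q ∈ D.Q x.1)
    (b : FreeGroup α) :
    NN D (q⁻¹ * FreeGroup.mk [x] * q * b) ≤ D.g x.1 + NN D b := by
  have hq' := D.Q_low _ hx q hq
  have hg := D.g_nonneg x.1
  have e1 : q⁻¹ * FreeGroup.mk [x] * q * b = q⁻¹ * (FreeGroup.mk [x] * (q * b)) := by group
  have e2 : NN D b = ell D (q * b) + N (q⁻¹ * gam D (q * b)) := by
    rw [ell_LS_mul D hq', gam_LS_mul D hq', inv_mul_cancel_left, NN]
  rw [e1, NN_LS_mul D (Subgroup.inv_mem _ hq'), e2]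
  set b1 := q * b
  rcases high_mul D hx b1 with ⟨h1, h2⟩ | ⟨h1, h2⟩
  · have h3 := gate' D hG hx (gam_mem D b1) hq
    rw [h1, h2]
    linarith
  · set b2 := FreeGroup.mk [x] * b1
    have h3 := gate' D hG hx (gam_mem D b2) hq
    rw [h1, h2]
    linarith

lemma NN_low_mul {t : FreeGroup α} (ht : t ∈ LS low) (b : FreeGroup α) :
    NN D (t * b) ≤ N t + NN D b := by
  rw [NN_LS_mul D ht, NN]
  have := hG.tri t ht _ (gam_mem D b)
  linarith

/-- **universal property** of the extended length: induction principle. -/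
lemma NN_universal {mid : α → Bool} (Pr : FreeGroup α → ℝ → Prop)
    (hmul : ∀ x y r s, Pr x r → Pr y s → Pr (x * y) (r + s))
    (hlow : ∀ t ∈ LS low, Pr t (N t))
    (hgen : ∀ x : α × Bool, mid x.1 = true → low x.1 = false → ∀ q ∈ D.Q x.1,
      Pr (q⁻¹ * FreeGroup.mk [x] * q) (D.g x.1))
    {b : FreeGroup α} (hb : b ∈ LS mid) : Pr b (NN D b) := by
  have key : ∀ L : List (α × Bool), (∀ x ∈ L, mid x.1 = true) → ∀ t ∈ LS low,
      Pr (t * FreeGroup.mk L) ((st D L).1 + N (t * (st D L).2)) := by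
    intro L
    induction L with
    | nil =>
      intro _ t ht
      have : (t * FreeGroup.mk [] : FreeGroup α) = t := by
        rw [← FreeGroup.one_eq_mk]; simp
      rw [this]
      simpa [st] using hlow t ht
    | cons x L ih =>
      intro hL t ht
      have ih' := ih (fun y hy => hL y (by simp [hy]))
      have e0 : (FreeGroup.mk (x :: L) : FreeGroup α) = FreeGroup.mk [x] * FreeGroup.mk L := by
        rw [FreeGroup.mul_mk]; rfl
      cases hx : low x.1
      · rw [st_high D hx]
        set s := (st D L).2 with hs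
        have hsm : s ∈ LS low := st_mem D L
        have hqm := D.p_mem _ hx s hsm
        have hql := D.Q_low _ hx _ hqm
        set q := D.p x.1 s with hq
        have e1 : t * FreeGroup.mk (x :: L) =
            (t * q) * (q⁻¹ * FreeGroup.mk [x] * q) * (q⁻¹ * FreeGroup.mk L) := by
          rw [e0]; group
        rw [e1]
        have h1 := hlow (t * q) (Subgroup.mul_mem _ ht hql)
        have h2 := hgen x (hL x (by simp)) hx q hqm
        have h3 := ih' q⁻¹ (Subgroup.inv_mem _ hql)
        have h4 := hmul _ _ _ _ (hmul _ _ _ _ h1 h2) h3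
        convert h4 using 1
        ring
      · rw [st_low D hx, e0, ← mul_assoc]
        have h3 := ih' (t * FreeGroup.mk [x]) (Subgroup.mul_mem _ ht (mk_singleton_mem hx))
        convert h3 using 2
        simp [mul_assoc]
  have h := key (toWord b) (low_of_mem_LS hb) 1 (Subgroup.one_mem _)
  rw [one_mul, mk_toWord, one_mul] at h
  exact h

lemma NN_tri {b : FreeGroup α} (c : FreeGroup α) : NN D (b * c) ≤ NN D b + NN D c := by
  have h := NN_universal (mid := fun _ => true) D hG
    (fun b r => ∀ c, NN D (b * c) ≤ r + NN D c)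
    (by
      intro x y r s hx hy c
      have h1 := hx (y * c)
      have h2 := hy c
      rw [mul_assoc]
      linarith)
    (fun t ht c => NN_low_mul D hG ht c)
    (fun x _ hx q hq c => NN_gen_mul D hG hx hq c)
    (b := b) (mem_LS_iff.2 (by simp))
  exact h c

lemma NN_one : NN D 1 = 0 := by
  rw [NN_LS D (Subgroup.one_mem _), hG.one]

lemma NN_gen {x : α × Bool} (hx : low x.1 = false) {q : FreeGroup α} (hq : q ∈ D.Q x.1) :
    NN D (q⁻¹ * FreeGroup.mk [x] * q) ≤ D.g x.1 := by
  have := NN_gen_mul D hG hx hq 1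
  rwa [mul_one, NN_one D hG, add_zero] at this

lemma NN_inv_le (b : FreeGroup α) : NN D b⁻¹ ≤ NN D b := by
  refine NN_universal (mid := fun _ => true) D hG
    (fun b r => NN D b⁻¹ ≤ r) ?_ ?_ ?_ (b := b) (mem_LS_iff.2 (by simp))
  · intro x y r s hx hy
    rw [mul_inv_rev]
    have := NN_tri D hG (b := y⁻¹) x⁻¹
    linarith
  · intro t ht
    rw [NN_LS D (Subgroup.inv_mem _ ht), hG.symm t ht]
  · intro x _ hx q hq
    have e : (q⁻¹ * FreeGroup.mk [x] * q)⁻¹ = q⁻¹ * FreeGroup.mk [(x.1, !x.2)] * q := by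
      rw [← mk_singleton_inv]; group
    rw [e]
    exact NN_gen D hG (x := (x.1, !x.2)) hx hq

lemma NN_symm (b : FreeGroup α) : NN D b⁻¹ = NN D b := by
  refine le_antisymm (NN_inv_le D hG b) ?_
  have := NN_inv_le D hG b⁻¹
  rwa [inv_inv] at this

lemma NN_nonneg (b : FreeGroup α) : 0 ≤ NN D b := by
  have h1 := st_nonneg D hG (toWord b)
  have h2 := hG.nonneg _ (gam_mem D b)
  rw [NN, ell]
  linarith

/-- **descent**: a coset at the end of a reduced word `L ++ [(a,e)]`, seen from `r` outside. -/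
lemma descent {L : List (α × Bool)} {a : α} {e : Bool} (ha : low a = false)
    (hred : FreeGroup.IsReduced (L ++ [(a, e)])) {k : FreeGroup α} (hk : k ∈ LS low)
    {r : FreeGroup α} (hr : ¬ (L ++ [(a, e)]) <+: toWord r) :
    NN D ((FreeGroup.mk (L ++ [(a, e)]) * k)⁻¹ * r) =
      N ((D.p a k)⁻¹ * k) + D.g a + NN D ((FreeGroup.mk L * D.p a k)⁻¹ * r) := by
  set b := (FreeGroup.mk L)⁻¹ * r with hb
  have e1 : (FreeGroup.mk (L ++ [(a, e)]) : FreeGroup α)⁻¹ * r =
      FreeGroup.mk [(a, !e)] * b := by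
    rw [← FreeGroup.mul_mk, mul_inv_rev, mk_singleton_inv, mul_assoc]
  have hword : toWord (FreeGroup.mk [(a, !e)] * b) = (a, !e) :: toWord b := by
    rcases toWord_cons_mul (a, !e) b with ⟨L', h1, h2⟩ | h
    · exfalso
      apply hr
      simp only [Bool.not_not] at h1
      have h3 : r = FreeGroup.mk (L ++ [(a, e)] ++ L') := by
        have : r = FreeGroup.mk L * b := by rw [hb]; group
        rw [this, ← mk_toWord (x := b), h1, FreeGroup.mul_mk]
        simp
      rw [h3, toWord_mk_of_isReduced]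
      · exact List.prefix_append _ _
      · have h4 : FreeGroup.IsReduced ([(a, e)] ++ L') := by
          have := isReduced_toWord (x := b)
          rw [h1] at this
          exact this
        exact hred.append_overlap h4 (by simp)
    · exact h
  obtain ⟨hg1, hg2⟩ := high_mul_of_word D (x := (a, !e)) ha hword
  simp only at hg1 hg2
  have e2 : (FreeGroup.mk (L ++ [(a, e)]) * k)⁻¹ * r = k⁻¹ * (FreeGroup.mk [(a, !e)] * b) := by
    rw [← e1]; group
  have e3 : (FreeGroup.mk L * D.p a k)⁻¹ * r = (D.p a k)⁻¹ * b := by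
    rw [hb]; group
  have hpk := D.p_mem a ha k hk
  have hpkl := D.Q_low a ha _ hpk
  rw [e2, e3, NN_LS_mul D (Subgroup.inv_mem _ hk), NN_LS_mul D (Subgroup.inv_mem _ hpkl), hg1, hg2]
  have hs := gam_mem D b
  set s := gam D b
  have hqs := D.p_mem a ha s hs
  have hqsl := D.Q_low a ha _ hqs
  -- gate at `k` against `p s`
  have g1 := D.gate a ha k hk _ hqs
  -- gate at `s` against `p k`
  have g2 := gate' D hG ha hs hpk
  have e4 : N (k⁻¹ * D.p a k) = N ((D.p a k)⁻¹ * k) := by
    rw [← hG.symm _ (Subgroup.mul_mem _ (Subgroup.inv_mem _ hk) hpkl)]; simp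
  rw [e4] at g1
  linarith

end good

end Pool.Agent.UHz

end
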