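import Pool.Agent.Lib_helper69.UH.Defs
import Pool.Agent.Lib_helper69.UH.Gated

/-! MP_8215f0_lc, module A, part 5: the tower and `exists_scale`. -/

set_option autoImplicit false
set_option linter.unusedSectionVars false

open FreeGroup

noncomputable section

namespace Pool.Agent.UHz

/-- letters of level `< n` -/
def lw (n : ℕ) : LL → Bool := fun a => decide (a.2.length < n)

lemma lw_iff {n : ℕ} {a : LL} : lw n a = true ↔ a.2.length < n := by simp [lw]

lemma lw_false_iff {n : ℕ} {a : LL} : lw n a = false ↔ n ≤ a.2.length := by simp [lw]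

lemma AA_eq (n : ℕ) : AA n = LS (lw n) := by
  simp [AA, LS, lw]

lemma LS_mono {n m : ℕ} (h : n ≤ m) {x : FF} (hx : x ∈ LS (lw n)) : x ∈ LS (lw m) := by
  rw [mem_LS_iff] at hx ⊢
  intro y hy
  have := hx y hy
  rw [lw_iff] at this ⊢
  omega

lemma exists_level (x : FF) : ∃ n, x ∈ LS (lw n) := by
  have : ∀ L : List (LL × Bool), ∃ n, ∀ y ∈ L, y.1.2.length < n := by
    intro L
    induction L with
    | nil => exact ⟨0, by simp⟩
    | cons y L ih =>
      obtain ⟨n, hn⟩ := ih
      refine ⟨max n (y.1.2.length + 1), ?_⟩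
      intro z hz
      rcases List.mem_cons.1 hz with rfl | h
      · exact lt_of_lt_of_le (Nat.lt_succ_self _) (le_max_right _ _)
      · exact lt_of_lt_of_le (hn z h) (le_max_left _ _)
  obtain ⟨n, hn⟩ := this (toWord x)
  exact ⟨n, mem_LS_iff.2 fun y hy => lw_iff.2 (hn y hy)⟩

lemma exists_level_finset (s : Finset FF) : ∃ n, ∀ x ∈ s, x ∈ LS (lw n) := by
  classical
  induction s using Finset.induction_on with
  | empty => exact ⟨0, by simp⟩
  | insert a s _ ih =>
    obtain ⟨n, hn⟩ := ih
    obtain ⟨m, hm⟩ := exists_level a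
    refine ⟨max n m, ?_⟩
    intro x hx
    rcases Finset.mem_insert.1 hx with rfl | h
    · exact LS_mono (le_max_right _ _) hm
    · exact LS_mono (le_max_left _ _) (hn x h)

lemma pw_mem (s : List ℕ) : pw s ∈ LS (lw s.length) := by
  induction s with
  | nil => exact Subgroup.one_mem _
  | cons i s ih =>
    refine Subgroup.mul_mem _ (LS_mono (by simp) ih) ?_
    exact Subgroup.subset_closure ⟨(i, s), by simp [lw], rfl⟩

/-- an enumeration of the free group -/
def enm : ℕ → FF := (exists_surjective_nat FF).choose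

lemma enm_surj (h : FF) : ∃ j, enm j = h := (exists_surjective_nat FF).choose_spec h

open Classical in
/-- the requested elements of `Q s` -/
def rq (n : ℕ) (s : List ℕ) : Finset FF :=
  (insert 1 ((Finset.range (n + 1)).image enm ∪
    (Finset.range (n + 1)).image (fun j => (pw s)⁻¹ * enm j))).filter (fun x => x ∈ LS (lw n))

lemma rq_low (n : ℕ) (s : List ℕ) : ∀ x ∈ rq n s, x ∈ LS (lw n) := fun x hx => by
  classical
  exact (Finset.mem_filter.1 hx).2

/-- a level -/
structure Lev (n : ℕ) where
  N : FF → ℝ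
  good : Good (LS (lw n)) N

/-- the gated set of the node `s` at level `n` -/
def Qc {n : ℕ} (l : Lev n) (s : List ℕ) : Finset FF := (l.good.gated (rq n s) (rq_low n s)).choose

lemma Qc_sub {n : ℕ} (l : Lev n) (s : List ℕ) : rq n s ⊆ Qc l s :=
  (l.good.gated (rq n s) (rq_low n s)).choose_spec.1

lemma Qc_low {n : ℕ} (l : Lev n) (s : List ℕ) : ∀ x ∈ Qc l s, x ∈ LS (lw n) :=
  (l.good.gated (rq n s) (rq_low n s)).choose_spec.2.1

lemma Qc_gate {n : ℕ} (l : Lev n) (s : List ℕ) : ∀ x ∈ LS (lw n), ∃ p ∈ Qc l s, ∀ r ∈ Qc l s,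
    l.N (x⁻¹ * r) = l.N (x⁻¹ * p) + l.N (p⁻¹ * r) :=
  (l.good.gated (rq n s) (rq_low n s)).choose_spec.2.2

open Classical in
/-- gate map -/
def pc {n : ℕ} (l : Lev n) (s : List ℕ) (x : FF) : FF :=
  if h : x ∈ LS (lw n) then (Qc_gate l s x h).choose else 1

lemma pc_mem {n : ℕ} (l : Lev n) (s : List ℕ) {x : FF} (h : x ∈ LS (lw n)) :
    pc l s x ∈ Qc l s := by
  rw [pc, dif_pos h]
  exact (Qc_gate l s x h).choose_spec.1

lemma pc_gate {n : ℕ} (l : Lev n) (s : List ℕ) {x : FF} (h : x ∈ LS (lw n)) :
    ∀ r ∈ Qc l s, l.N (x⁻¹ * r) = l.N (x⁻¹ * pc l s x) + l.N ((pc l s x)⁻¹ * r) := by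
  rw [pc, dif_pos h]
  exact (Qc_gate l s x h).choose_spec.2

/-- the gate data of a level -/
def gd {n : ℕ} (l : Lev n) : GateData (lw n) l.N where
  p a x := if a.2.length = n then pc l a.2 x else 1
  Q a := if a.2.length = n then Qc l a.2 else {1}
  g a := (1 / 4) ^ a.2.length
  g_nonneg a := by positivity
  Q_low a _ q hq := by
    split_ifs at hq with h
    · exact Qc_low l a.2 q hq
    · rw [Finset.mem_singleton.1 hq]; exact Subgroup.one_mem _
  p_mem a _ x hx := by
    by_cases h : a.2.length = n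
    · simp only [if_pos h]
      exact pc_mem l a.2 hx
    · simp [if_neg h]
  gate a _ x hx q hq := by
    by_cases h : a.2.length = n
    · simp only [if_pos h] at hq ⊢
      exact pc_gate l a.2 hx q hq
    · simp only [if_neg h, Finset.mem_singleton] at hq ⊢
      subst hq
      simp [l.good.one]

/-- next level -/
def nxt {n : ℕ} (l : Lev n) : Lev (n + 1) where
  N := NN (gd l)
  good :=
    { one := NN_one (gd l) l.good
      nonneg := fun x _ => NN_nonneg (gd l) l.good x
      symm := fun x _ => NN_symm (gd l) l.good x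
      tri := fun x _ y _ => NN_tri (gd l) l.good y
      psd := fun ι s x c _ => NN_psd (gd l) l.good ι s _ x c le_rfl
      gated := fun S hS => by
        obtain ⟨R, h1, h2, h3⟩ := NN_gated (gd l) l.good (mid := lw (n + 1))
          (fun a ha => by rw [lw_iff] at ha ⊢; omega) S hS
        exact ⟨R, h1, h2, fun x _ => h3 x⟩ }

lemma LS_zero {x : FF} (hx : x ∈ LS (lw 0)) : x = 1 := by
  rw [mem_LS_iff] at hx
  rw [← toWord_eq_nil_iff]
  rw [List.eq_nil_iff_forall_not_mem]
  intro y hy
  have := hx y hy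
  rw [lw_iff] at this
  omega

/-- level zero -/
def lev0 : Lev 0 where
  N := fun _ => 0
  good :=
    { one := rfl
      nonneg := fun _ _ => le_rfl
      symm := fun _ _ => rfl
      tri := fun _ _ _ _ => by simp
      psd := fun ι s x c _ => by
        simp only [neg_zero, Real.exp_zero, mul_one]
        rw [← Finset.sum_mul_sum]
        exact mul_self_nonneg _
      gated := fun S hS => by
        refine ⟨insert 1 S, Finset.subset_insert _ _, ?_, ?_⟩
        · intro x hx
          rcases Finset.mem_insert.1 hx with rfl | h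
          · exact Subgroup.one_mem _
          · exact hS x h
        · intro x _
          exact ⟨1, Finset.mem_insert_self _ _, fun r _ => by simp⟩ }

/-- the tower -/
def lev : (n : ℕ) → Lev n
  | 0 => lev0
  | n + 1 => nxt (lev n)

lemma lev_succ_N (n : ℕ) : (lev (n + 1)).N = NN (gd (lev n)) := rfl

lemma lev_consistent {n m : ℕ} (h : n ≤ m) {x : FF} (hx : x ∈ LS (lw n)) :
    (lev m).N x = (lev n).N x := by
  induction m, h using Nat.le_induction with
  | base => rfl
  | succ m hm ih =>
    rw [lev_succ_N, NN_LS (gd (lev m)) (LS_mono hm hx), ih]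

/-- the final length -/
def len (x : FF) : ℝ := (lev (exists_level x).choose).N x

lemma len_eq {n : ℕ} {x : FF} (hx : x ∈ LS (lw n)) : len x = (lev n).N x := by
  have h := (exists_level x).choose_spec
  rw [len]
  rcases le_total n (exists_level x).choose with h1 | h1
  · exact lev_consistent h1 hx
  · exact (lev_consistent h1 h).symm

/-- the gated set of the node `s` -/
def QQ (s : List ℕ) : Finset FF := Qc (lev s.length) s

lemma of_mem (a : LL) : (FreeGroup.of a : FF) ∈ LS (lw (a.2.length + 1)) :=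
  Subgroup.subset_closure ⟨a, by simp [lw], rfl⟩

theorem exists_scale : ∃ (N : FF → ℝ) (Q : List ℕ → Finset FF),
    N 1 = 0 ∧ (∀ x, 0 ≤ N x) ∧ (∀ x, N x⁻¹ = N x) ∧
    (∀ (s : Finset FF) (c : FF → ℝ),
      0 ≤ ∑ x ∈ s, ∑ y ∈ s, c x * c y * Real.exp (-N (x⁻¹ * y))) ∧
    (∀ i s, ∀ q ∈ Q s, N (q⁻¹ * FreeGroup.of (i, s) * q) ≤ (1 / 4) ^ s.length) ∧
    (∀ M : FF → ℝ, M 1 ≤ 0 → (∀ x y, M (x * y) ≤ M x + M y) →
      (∀ i s, ∀ q ∈ Q s, M (q⁻¹ * FreeGroup.of (i, s) * q) ≤ (1 / 4) ^ s.length ∧
        M (q⁻¹ * FreeGroup.of (i, s) * q)⁻¹ ≤ (1 / 4) ^ s.length) →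
      ∀ x, M x ≤ N x) ∧
    (∀ s, 1 ∈ Q s) ∧ (∀ s, ∀ q ∈ Q s, q ∈ AA s.length) ∧
    (∀ h, ∃ m, ∀ s : List ℕ, m ≤ s.length → h ∈ Q s ∧ (pw s)⁻¹ * h ∈ Q s) := by
  refine ⟨len, QQ, ?_, ?_, ?_, ?_, ?_, ?_, ?_, ?_, ?_⟩
  · rw [len_eq (n := 0) (Subgroup.one_mem _)]
    exact (lev 0).good.one
  · intro x
    obtain ⟨n, hn⟩ := exists_level x
    rw [len_eq hn]
    exact (lev n).good.nonneg x hn
  · intro x
    obtain ⟨n, hn⟩ := exists_level x
    rw [len_eq hn, len_eq (Subgroup.inv_mem _ hn)]
    exact (lev n).good.symm x hn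
  · intro s c
    obtain ⟨n, hn⟩ := exists_level_finset s
    have := (lev n).good.psd FF s id c hn
    refine this.trans_eq (Finset.sum_congr rfl fun x hx => Finset.sum_congr rfl fun y hy => ?_)
    rw [len_eq (Subgroup.mul_mem _ (Subgroup.inv_mem _ (hn x hx)) (hn y hy))]
    rfl
  · intro i s q hq
    have hql := Qc_low (lev s.length) s q hq
    have hq' := LS_mono (Nat.le_succ _) hql
    have hmem : q⁻¹ * FreeGroup.of (i, s) * q ∈ LS (lw (s.length + 1)) :=
      Subgroup.mul_mem _ (Subgroup.mul_mem _ (Subgroup.inv_mem _ hq') (of_mem (i, s))) hq'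
    rw [len_eq hmem, lev_succ_N]
    have := NN_gen (gd (lev s.length)) (lev s.length).good (x := ((i, s), true))
      (by simp [lw]) (q := q) (by
        show q ∈ (if s.length = s.length then Qc (lev s.length) s else {1})
        rw [if_pos rfl]; exact hq)
    exact this
  · intro M h1 hM hgen x
    have key : ∀ n, ∀ x ∈ LS (lw n), M x ≤ (lev n).N x := by
      intro n
      induction n with
      | zero =>
        intro x hx
        rw [LS_zero hx, (lev 0).good.one]
        exact h1
      | succ n ih =>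
        intro x hx
        rw [lev_succ_N]
        refine NN_universal (gd (lev n)) (lev n).good (mid := lw (n + 1)) (fun b r => M b ≤ r)
          ?_ ih ?_ hx
        · intro x y r s hx hy
          have := hM x y
          linarith
        · rintro ⟨⟨i, s⟩, e⟩ h2 h3 q hq
          rw [lw_iff] at h2
          rw [lw_false_iff] at h3
          have hn : s.length = n := by simp only at h2 h3; omega
          subst hn
          have hq' : q ∈ QQ s := by
            have : q ∈ (if s.length = s.length then Qc (lev s.length) s else {1}) := hq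
            rwa [if_pos rfl] at this
          have h4 := hgen i s q hq'
          show M _ ≤ (1 / 4) ^ s.length
          cases e
          · have : (FreeGroup.mk [((i, s), false)] : FF) = (FreeGroup.of (i, s))⁻¹ := by
              simp [FreeGroup.of, FreeGroup.inv_mk, FreeGroup.invRev]
            rw [this]
            have e2 : q⁻¹ * (FreeGroup.of (i, s))⁻¹ * q = (q⁻¹ * FreeGroup.of (i, s) * q)⁻¹ := by
              group
            rw [e2]
            exact h4.2
          · exact h4.1
    obtain ⟨n, hn⟩ := exists_level x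
    rw [len_eq hn]
    exact key n x hn
  · intro s
    refine Qc_sub _ _ ?_
    simp only [rq, Finset.mem_filter, Finset.mem_insert, true_or, true_and]
    exact Subgroup.one_mem _
  · intro s q hq
    rw [AA_eq]
    exact Qc_low _ _ q hq
  · intro h
    obtain ⟨j, rfl⟩ := enm_surj h
    obtain ⟨n, hn⟩ := exists_level (enm j)
    refine ⟨max n j, fun s hs => ?_⟩
    have h1 : enm j ∈ LS (lw s.length) := LS_mono (le_trans (le_max_left _ _) hs) hn
    have hj : j < s.length + 1 := Nat.lt_succ_of_le (le_trans (le_max_right _ _) hs)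
    constructor
    · refine Qc_sub _ _ ?_
      simp only [rq, Finset.mem_filter, Finset.mem_insert, Finset.mem_union, Finset.mem_image,
        Finset.mem_range]
      exact ⟨Or.inr (Or.inl ⟨j, hj, rfl⟩), h1⟩
    · refine Qc_sub _ _ ?_
      simp only [rq, Finset.mem_filter, Finset.mem_insert, Finset.mem_union, Finset.mem_image,
        Finset.mem_range]
      exact ⟨Or.inr (Or.inr ⟨j, hj, rfl⟩),
        Subgroup.mul_mem _ (Subgroup.inv_mem _ (pw_mem s)) h1⟩

end Pool.Agent.UHz

end
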