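import Mathlib

/-! MP_8215f0_lc, module A, part 1: reduced words and low letters. -/

set_option autoImplicit false

open FreeGroup

namespace Pool.Agent.UHz

variable {α : Type} [DecidableEq α]

/-- subgroup of the free group generated by the low letters -/
def LS (low : α → Bool) : Subgroup (FreeGroup α) :=
  Subgroup.closure (FreeGroup.of '' {a : α | low a = true})

/-- letter test on signed letters -/
abbrev lo (low : α → Bool) : α × Bool → Bool := fun x => low x.1

omit [DecidableEq α] in
lemma mk_singleton_mem {low : α → Bool} {x : α × Bool} (h : low x.1 = true) :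
    (FreeGroup.mk [x] : FreeGroup α) ∈ LS low := by
  obtain ⟨a, e⟩ := x
  cases e
  · have : (FreeGroup.mk [(a, false)] : FreeGroup α) = (FreeGroup.of a)⁻¹ := by
      simp [FreeGroup.of, FreeGroup.inv_mk, FreeGroup.invRev]
    rw [this]
    exact Subgroup.inv_mem _ (Subgroup.subset_closure ⟨a, h, rfl⟩)
  · exact Subgroup.subset_closure ⟨a, h, rfl⟩

omit [DecidableEq α] in
lemma mk_mem_LS {low : α → Bool} {L : List (α × Bool)} (h : ∀ x ∈ L, low x.1 = true) :
    (FreeGroup.mk L : FreeGroup α) ∈ LS low := by
  induction L with
  | nil => exact Subgroup.one_mem _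
  | cons x L ih =>
    have : (FreeGroup.mk (x :: L) : FreeGroup α) = FreeGroup.mk [x] * FreeGroup.mk L := by
      rw [FreeGroup.mul_mk]; rfl
    rw [this]
    exact Subgroup.mul_mem _ (mk_singleton_mem (h x (by simp))) (ih fun y hy => h y (by simp [hy]))

lemma low_of_mem_LS {low : α → Bool} {x : FreeGroup α} (h : x ∈ LS low) :
    ∀ y ∈ toWord x, low y.1 = true := by
  induction h using Subgroup.closure_induction with
  | mem x hx =>
    obtain ⟨a, ha, rfl⟩ := hx
    intro y hy
    rw [toWord_of] at hy
    simp only [List.mem_singleton] at hy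
    subst hy
    exact ha
  | one => simp
  | mul x y _ _ hx hy =>
    intro z hz
    have := (toWord_mul_sublist x y).subset hz
    rcases List.mem_append.1 this with h | h
    · exact hx z h
    · exact hy z h
  | inv x _ hx =>
    intro z hz
    rw [toWord_inv] at hz
    simp only [FreeGroup.invRev, List.mem_reverse, List.mem_map] at hz
    obtain ⟨w, hw, rfl⟩ := hz
    exact hx w hw

lemma mem_LS_iff {low : α → Bool} {x : FreeGroup α} :
    x ∈ LS low ↔ ∀ y ∈ toWord x, low y.1 = true :=
  ⟨low_of_mem_LS, fun h => by rw [← mk_toWord (x := x)]; exact mk_mem_LS h⟩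

omit [DecidableEq α] in
lemma isReduced_left {L₁ L₂ : List (α × Bool)} (h : FreeGroup.IsReduced (L₁ ++ L₂)) :
    FreeGroup.IsReduced L₁ := (List.isChain_append.1 h).1

omit [DecidableEq α] in
lemma isReduced_right {L₁ L₂ : List (α × Bool)} (h : FreeGroup.IsReduced (L₁ ++ L₂)) :
    FreeGroup.IsReduced L₂ := (List.isChain_append.1 h).2.1

omit [DecidableEq α] in
lemma isReduced_pre {L₁ L : List (α × Bool)} (h : FreeGroup.IsReduced L) (hp : L₁ <+: L) :
    FreeGroup.IsReduced L₁ := by
  obtain ⟨L₂, rfl⟩ := hp
  exact isReduced_left h

lemma toWord_mk_of_isReduced {L : List (α × Bool)} (h : IsReduced L) :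
    toWord (FreeGroup.mk L) = L := by
  rw [toWord_mk, h.reduce_eq]

/-- a reduced word ending with a high letter (or empty), times a low element -/
lemma toWord_top_mul {low : α → Bool} {t : List (α × Bool)} (ht : IsReduced t)
    (htop : t.rdropWhile (lo low) = t) {k : FreeGroup α} (hk : k ∈ LS low) :
    toWord (FreeGroup.mk t * k) = t ++ toWord k := by
  have h1 : FreeGroup.mk t * k = FreeGroup.mk (t ++ toWord k) := by
    rw [← FreeGroup.mul_mk, mk_toWord]
  rw [h1]
  apply toWord_mk_of_isReduced
  rw [FreeGroup.IsReduced, List.isChain_append]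
  refine ⟨ht, isReduced_toWord, ?_⟩
  intro x hx y hy hxy
  exfalso
  have hy' : low y.1 = true := low_of_mem_LS hk y (List.mem_of_mem_head? hy)
  rw [List.rdropWhile_eq_self_iff] at htop
  have hne : t ≠ [] := by
    rintro rfl
    simp at hx
  have := htop hne
  rw [List.getLast?_eq_some_getLast hne] at hx
  simp only [Option.mem_def, Option.some.injEq] at hx
  rw [hx] at this
  apply this
  simp only [lo]
  rw [hxy]
  exact hy'

/-- top part of the reduced word -/
def top (low : α → Bool) (x : FreeGroup α) : List (α × Bool) := (toWord x).rdropWhile (lo low)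

/-- low tail -/
def tl (low : α → Bool) (x : FreeGroup α) : FreeGroup α :=
  FreeGroup.mk ((toWord x).rtakeWhile (lo low))

lemma mk_top_mul_tl (low : α → Bool) (x : FreeGroup α) :
    FreeGroup.mk (top low x) * tl low x = x := by
  rw [top, tl, FreeGroup.mul_mk, List.rdropWhile_append_rtakeWhile, mk_toWord]

lemma tl_mem (low : α → Bool) (x : FreeGroup α) : tl low x ∈ LS low :=
  mk_mem_LS fun y hy => by
    have := List.mem_rtakeWhile_imp (p := lo low) hy
    exact this

lemma top_isReduced (low : α → Bool) (x : FreeGroup α) : IsReduced (top low x) :=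
  isReduced_pre isReduced_toWord (List.rdropWhile_prefix _ _)

lemma top_top (low : α → Bool) (x : FreeGroup α) :
    (top low x).rdropWhile (lo low) = top low x := List.rdropWhile_idempotent _ _

lemma top_prefix (low : α → Bool) (x : FreeGroup α) : top low x <+: toWord x :=
  List.rdropWhile_prefix _ _

omit [DecidableEq α] in
/-- a prefix ending with a high letter of `u ++ v`, `v` low, is a prefix of `u`. -/
lemma prefix_of_prefix_append_low {low : α → Bool} {t u v : List (α × Bool)}
    (htop : t.rdropWhile (lo low) = t) (hv : ∀ y ∈ v, low y.1 = true)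
    (h : t <+: u ++ v) : t <+: u := by
  obtain ⟨s, hs⟩ := h
  rw [List.append_eq_append_iff] at hs
  rcases hs with ⟨w, rfl, -⟩ | ⟨w, rfl, rfl⟩
  · exact List.prefix_append _ _
  · rcases eq_or_ne w [] with rfl | hne
    · simp
    · exfalso
      rw [List.rdropWhile_eq_self_iff] at htop
      have h1 := htop (by simp [hne])
      rw [List.getLast_append_of_ne_nil _ hne] at h1
      apply h1
      simp only [lo]
      exact hv _ (List.mem_append_left _ (List.getLast_mem hne))

lemma top_mk_mul {low : α → Bool} {t : List (α × Bool)} (ht : IsReduced t)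
    (htop : t.rdropWhile (lo low) = t) {k : FreeGroup α} (hk : k ∈ LS low) :
    top low (FreeGroup.mk t * k) = t := by
  have h := toWord_top_mul ht htop hk
  have h1 : top low (FreeGroup.mk t * k) <+: t :=
    prefix_of_prefix_append_low (top_top low _) (low_of_mem_LS hk) (h ▸ top_prefix low _)
  have h2 : ((toWord (FreeGroup.mk t * k)).rdropWhile (lo low)).length ≥ t.length := by
    rw [h]
    clear h h1
    have : ∀ v : List (α × Bool), (∀ y ∈ v, low y.1 = true) →
        ((t ++ v).rdropWhile (lo low)) = t := by
      intro v
      induction v using List.reverseRecOn with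
      | nil => intro _; simpa using htop
      | append_singleton v x ih =>
        intro hv
        rw [← List.append_assoc, List.rdropWhile_concat_pos _ _ _ (by
          simp only [lo]; exact hv x (by simp))]
        exact ih fun y hy => hv y (by simp [hy])
    rw [this _ (low_of_mem_LS hk)]
  exact h1.eq_of_length (le_antisymm h1.length_le h2)

omit [DecidableEq α] in
/-- shape of a nonempty top -/
lemma top_shape {low : α → Bool} {t : List (α × Bool)}
    (htop : t.rdropWhile (lo low) = t) (hne : t ≠ []) :
    ∃ L a e, t = L ++ [(a, e)] ∧ low a = false := by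
  rw [List.rdropWhile_eq_self_iff] at htop
  refine ⟨t.dropLast, (t.getLast hne).1, (t.getLast hne).2, ?_, ?_⟩
  · simp [List.dropLast_append_getLast]
  · have := htop hne
    simpa [lo] using this

omit [DecidableEq α] in
lemma isTop_append {low : α → Bool} (L : List (α × Bool)) {a : α} {e : Bool}
    (ha : low a = false) : (L ++ [(a, e)]).rdropWhile (lo low) = L ++ [(a, e)] := by
  apply List.rdropWhile_concat_neg
  simp [lo, ha]

end Pool.Agent.UHz
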